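import Pool.Agent.MVC.Defs

/-!
Minkowski-Voronoi complexes: the two chains, the lattice in the various bases, domination.
-/

set_option autoImplicit false

namespace Pool.Agent.MVC

variable {k : ℕ} {b x y : ℕ → ℤ}

theorem Ch.b_two (h : Ch k b x y) (i : ℕ) (hi : i < k) : 2 ≤ b (i + 1) := by
  rcases h.hb (i + 1) (by omega) (by omega) with h1 | h1 <;> omega

theorem Ch.y_step (h : Ch k b x y) : ∀ i, i ≤ k → 0 ≤ y i ∧ y i < y (i + 1) := by
  intro i
  induction i with
  | zero => intro _; rw [h.y0, h.y1]; omega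
  | succ i ih =>
    intro hi
    obtain ⟨h1, h2⟩ := ih (by omega)
    have h3 := h.hy i (by omega)
    have h4 := h.b_two i (by omega)
    constructor
    · linarith
    · rw [h3]; nlinarith

theorem Ch.y_nonneg (h : Ch k b x y) (i : ℕ) (hi : i ≤ k + 1) : 0 ≤ y i := by
  rcases Nat.lt_or_ge i (k + 1) with h1 | h1
  · exact (h.y_step i (by omega)).1
  · have h2 : i = k + 1 := by omega
    have h3 := h.y_step k le_rfl
    rw [h2]; linarith [h3.1, h3.2]

theorem Ch.y_pos (h : Ch k b x y) (i : ℕ) (h1 : 1 ≤ i) (hi : i ≤ k + 1) : 0 < y i := by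
  obtain ⟨j, rfl⟩ : ∃ j, i = j + 1 := ⟨i - 1, by omega⟩
  have h3 := h.y_step j (by omega)
  linarith [h3.1, h3.2]

theorem Ch.x_step (h : Ch k b x y) : ∀ j, j ≤ k → 0 ≤ x (k + 1 - j) ∧ x (k + 1 - j) < x (k - j) := by
  intro j
  induction j with
  | zero =>
    intro _
    simp only [Nat.sub_zero]
    rw [h.xk1, h.xk]; omega
  | succ j ih =>
    intro hj
    obtain ⟨h1, h2⟩ := ih (by omega)
    have h3 := h.hx (k - (j + 1)) (by omega)
    have h4 := h.b_two (k - (j + 1)) (by omega)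
    have e1 : k - (j + 1) + 1 = k - j := by omega
    have e2 : k - (j + 1) + 2 = k + 1 - j := by omega
    have e3 : k + 1 - (j + 1) = k - j := by omega
    rw [e1, e2] at h3
    rw [e1] at h4
    rw [e3]
    constructor
    · linarith
    · rw [h3]; nlinarith

theorem Ch.x_lt_succ (h : Ch k b x y) (i : ℕ) (hi : i ≤ k) : 0 ≤ x (i + 1) ∧ x (i + 1) < x i := by
  have h1 := h.x_step (k - i) (by omega)
  have e1 : k + 1 - (k - i) = i + 1 := by omega
  have e2 : k - (k - i) = i := by omega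
  rw [e1, e2] at h1
  exact h1

theorem Ch.x_nonneg (h : Ch k b x y) (i : ℕ) (hi : i ≤ k + 1) : 0 ≤ x i := by
  rcases Nat.lt_or_ge i (k + 1) with h1 | h1
  · have := h.x_lt_succ i (by omega)
    linarith [this.1, this.2]
  · have h2 : i = k + 1 := by omega
    rw [h2, h.xk1]

theorem Ch.x_pos (h : Ch k b x y) (i : ℕ) (hi : i ≤ k) : 0 < x i := by
  have := h.x_lt_succ i hi
  linarith [this.1, this.2]

theorem Ch.y_lt (h : Ch k b x y) (i j : ℕ) (hij : i < j) (hj : j ≤ k + 1) : y i < y j := by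
  induction j with
  | zero => omega
  | succ j ih =>
    have h1 := (h.y_step j (by omega)).2
    rcases Nat.lt_or_ge i j with h2 | h2
    · exact lt_trans (ih h2 (by omega)) h1
    · have : i = j := by omega
      rw [this]; exact h1

theorem Ch.y_le (h : Ch k b x y) (i j : ℕ) (hij : i ≤ j) (hj : j ≤ k + 1) : y i ≤ y j := by
  rcases Nat.lt_or_ge i j with h2 | h2
  · exact (h.y_lt i j h2 hj).le
  · have : i = j := by omega
    rw [this]

theorem Ch.x_lt (h : Ch k b x y) (i j : ℕ) (hij : i < j) (hj : j ≤ k + 1) : x j < x i := by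
  induction j with
  | zero => omega
  | succ j ih =>
    have h1 := (h.x_lt_succ j (by omega)).2
    rcases Nat.lt_or_ge i j with h2 | h2
    · exact lt_trans h1 (ih h2 (by omega))
    · have : i = j := by omega
      rw [this]; exact h1

theorem Ch.x_le (h : Ch k b x y) (i j : ℕ) (hij : i ≤ j) (hj : j ≤ k + 1) : x j ≤ x i := by
  rcases Nat.lt_or_ge i j with h2 | h2
  · exact (h.x_lt i j h2 hj).le
  · have : i = j := by omega
    rw [this]

theorem Ch.y_two (h : Ch k b x y) (i : ℕ) (hi : i < k) : 2 * y (i + 1) + y i ≤ y (i + 2) := by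
  rw [h.hy i hi]
  have := h.b_two i hi
  have := h.y_nonneg (i + 1) (by omega)
  nlinarith

theorem Ch.x_two (h : Ch k b x y) (i : ℕ) (hi : i < k) : 2 * x (i + 1) + x (i + 2) ≤ x i := by
  rw [h.hx i hi]
  have := h.b_two i hi
  have := h.x_nonneg (i + 1) (by omega)
  nlinarith

/-! ### The lattice in the basis number `i` -/

theorem inL_succ (h : Ch k b x y) (i : ℕ) (hi : i < k) (X Y z : ℤ) : InL x y i X Y z ↔ InL x y (i + 1) X Y z := by
  have hb : b (i + 1) = 2 ∨ b (i + 1) = 4 := h.hb (i + 1) (by omega) (by omega)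
  have hx := h.hx i hi
  have hy := h.hy i hi
  constructor
  · rintro ⟨p, q, h1, h2, h3⟩
    refine ⟨q - b (i + 1) * p, p, ?_, ?_, ?_⟩
    · rw [h1, hx, pow_succ]; ring
    · rw [h2, hy]; ring
    · rcases hb with hb | hb <;> rw [hb] <;> obtain ⟨c, hc⟩ := h3
      · exact ⟨c + p, by linarith⟩
      · exact ⟨c + 2 * p, by linarith⟩
  · rintro ⟨p, q, h1, h2, h3⟩
    refine ⟨q, p + b (i + 1) * q, ?_, ?_, ?_⟩
    · rw [h1, hx, pow_succ]; ring
    · rw [h2, hy]; ring
    · rcases hb with hb | hb <;> rw [hb] <;> obtain ⟨c, hc⟩ := h3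
      · exact ⟨c - q, by linarith⟩
      · exact ⟨c - 2 * q, by linarith⟩

theorem inL_iff (h : Ch k b x y) (i : ℕ) (hi : i ≤ k) (X Y z : ℤ) : InL x y 0 X Y z ↔ InL x y i X Y z := by
  induction i with
  | zero => exact Iff.rfl
  | succ i ih => exact (ih (by omega)).trans (inL_succ h i (by omega) X Y z)

theorem inL_abs {i : ℕ} {X Y z : ℤ} (h : InL x y i X Y z) :
    ∃ p q : ℤ, |X| = |p * x i - q * x (i + 1)| ∧ |Y| = |p * y i + q * y (i + 1)| ∧ (2 : ℤ) ∣ z - p - q := by
  obtain ⟨p, q, h1, h2, h3⟩ := h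
  refine ⟨p, q, ?_, by rw [h2], h3⟩
  rw [h1, abs_mul, abs_pow]
  simp

/-- a point of the lattice with given coordinates (up to sign) in the basis number `i` -/
theorem inL_mk (h : Ch k b x y) (i : ℕ) (hi : i ≤ k) (p q z : ℤ) (hz : (2 : ℤ) ∣ z - p - q) :
    ∃ X Y : ℤ, InL x y 0 X Y z ∧ |X| = |p * x i - q * x (i + 1)| ∧ |Y| = |p * y i + q * y (i + 1)| := by
  refine ⟨(-1) ^ i * (p * x i - q * x (i + 1)), p * y i + q * y (i + 1), ?_, ?_, rfl⟩
  · exact (inL_iff h i hi _ _ _).2 ⟨p, q, rfl, rfl, hz⟩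
  · rw [abs_mul, abs_pow]; simp

end Pool.Agent.MVC
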