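import Pool.Agent.MVC.CountA

/-!
Minkowski-Voronoi complexes of sublattices of `ℤ^n`: the number of the lattices of a family with
the same complex.
-/

set_option autoImplicit false

open scoped Classical

namespace Pool.Agent.MVC

variable {n : ℕ}

theorem fiber_abs {k : ℕ} (hn : 2 ≤ n) (G : (Fin k → Bool) → AddSubgroup (Fin n → ℤ))
    (B : Finset (Fin n → ℤ)) (P : (Fin k → Bool) → (Fin n → ℤ)) (Q : ℕ)
    (hB : ∀ β, ∀ s ∈ B, s ∈ minima (G β)) (hP : ∀ β, P β ∈ minima (G β))
    (hfin : ∀ β, (minima (G β)).Finite) (hQ : ∀ β, (minima (G β)).ncard ≤ Q)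
    (hrec : ∀ β β' φ, HIso (G β) (G β') φ → (∀ s ∈ B, φ s = s) → φ (P β) = P β' → β = β')
    (β₀ : Fin k → Bool) :
    (Finset.univ.filter fun β => Same (G β) (G β₀)).card ≤ Q ^ (B.card + 1) := by
  have h1 : ∀ β, ∃ φ, Same (G β) (G β₀) → HIso (G β) (G β₀) φ := by
    intro β
    by_cases h : Same (G β) (G β₀)
    · obtain ⟨φ, hφ⟩ := iso_of_same hn h
      exact ⟨φ, fun _ => hφ⟩
    · exact ⟨id, fun h' => absurd h' h⟩
  choose φ hφ using h1
  set A : Finset (Fin n → ℤ) := (hfin β₀).toFinset with hA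
  have hAc : A.card ≤ Q := by
    rw [hA, ← Set.ncard_eq_toFinset_card _ (hfin β₀)]
    exact hQ β₀
  set f : (Fin k → Bool) → Option {s // s ∈ B} → (Fin n → ℤ) := fun β o =>
    Option.elim o (φ β (P β)) (fun s => φ β s.1) with hf
  have h2 : (Finset.univ.filter fun β => Same (G β) (G β₀)).card ≤
      (Fintype.piFinset fun _ : Option {s // s ∈ B} => A).card := by
    refine Finset.card_le_card_of_injOn f (fun β hβ => ?_) (fun β hβ β' hβ' hff => ?_)
    · have h3 : Same (G β) (G β₀) := by simpa using hβ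
      rw [Finset.mem_coe, Fintype.mem_piFinset]
      intro o
      rw [hA, Set.Finite.mem_toFinset]
      cases o with
      | none => exact (hφ β h3).bij.mapsTo (hP β)
      | some s => exact (hφ β h3).bij.mapsTo (hB β s.1 s.2)
    · have h3 : Same (G β) (G β₀) := by simpa using hβ
      have h3' : Same (G β') (G β₀) := by simpa using hβ'
      obtain ⟨χ, hχ, h4⟩ := (hφ β h3).comp_inv (hφ β' h3')
      refine hrec β β' χ hχ (fun s hs => ?_) ?_
      · have h5 := congrFun hff (some ⟨s, hs⟩)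
        change φ β s = φ β' s at h5
        refine (hφ β' h3').bij.injOn (hχ.bij.mapsTo (hB β s hs)) (hB β' s hs) ?_
        rw [h4 s (hB β s hs), h5]
      · have h5 := congrFun hff none
        change φ β (P β) = φ β' (P β') at h5
        refine (hφ β' h3').bij.injOn (hχ.bij.mapsTo (hP β)) (hP β') ?_
        rw [h4 _ (hP β), h5]
  refine h2.trans ?_
  rw [Fintype.card_piFinset, Finset.prod_const, Finset.card_univ, Fintype.card_option,
    Fintype.card_coe]
  exact Nat.pow_le_pow_left hAc _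

/-- The partial quotients of a word. -/
def bOf {k : ℕ} (β : Fin k → Bool) (i : ℕ) : ℤ :=
  if h : 1 ≤ i ∧ i ≤ k then (if β ⟨i - 1, by omega⟩ then 4 else 2) else 0

theorem bOf_mem {k : ℕ} (β : Fin k → Bool) (i : ℕ) (h1 : 1 ≤ i) (h2 : i ≤ k) :
    bOf β i = 2 ∨ bOf β i = 4 := by
  unfold bOf
  rw [dif_pos ⟨h1, h2⟩]
  by_cases h : β ⟨i - 1, by omega⟩ = true
  · exact Or.inr (if_pos h)
  · exact Or.inl (if_neg h)

theorem bOf_inj {k : ℕ} {β β' : Fin k → Bool}
    (h : ∀ i, 1 ≤ i → i ≤ k → bOf β i = bOf β' i) : β = β' := by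
  funext j
  have h1 := h (j.1 + 1) (by omega) (by omega)
  unfold bOf at h1
  rw [dif_pos ⟨by omega, by omega⟩, dif_pos ⟨by omega, by omega⟩] at h1
  simp only [Nat.add_sub_cancel] at h1
  cases hβ : β j <;> cases hβ' : β' j <;> simp [hβ, hβ'] at h1 ⊢

theorem base_card_le (m : ℕ) : (base m).card ≤ m + 1 := by
  unfold base
  refine (Finset.card_insert_le _ _).trans ?_
  refine Nat.add_le_add_right (Finset.card_image_le.trans ?_) 1
  have h1 : (Finset.univ.filter (fun j : Fin (m + 3) => 3 ≤ j.1)).card ≤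
      (Finset.univ : Finset (Fin m)).card := by
    refine Finset.card_le_card_of_surjOn (fun j : Fin m => (⟨j.1 + 3, by omega⟩ : Fin (m + 3)))
      ?_
    intro j hj
    have h2 : 3 ≤ j.1 := by simpa using hj
    refine ⟨⟨j.1 - 3, by omega⟩, by simp, ?_⟩
    apply Fin.ext
    change j.1 - 3 + 3 = j.1
    omega
  rwa [Finset.card_univ, Fintype.card_fin] at h1

end Pool.Agent.MVC
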