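import Pool.Agent.MVC.Recon
import Pool.Agent.MVC.CountB

/-!
Minkowski-Voronoi complexes: exponentially many complexes with `N` vertices.
-/

set_option autoImplicit false

open scoped Classical

namespace Pool.Agent.MVC

theorem count_k (m k : ℕ) (hk : 2 ≤ k) : ∃ N, k - 1 ≤ N ∧ N ≤ 3 * 2 ^ m * (5 * k + 10 + m) ∧
    ∃ r : ℕ, 2 ^ k ≤ (3 * 2 ^ m * (5 * k + 10 + m) + 1) * ((5 * k + 10 + m) ^ (m + 2) * r) ∧
      (r : ℕ∞) ≤ cnt (m + 3) N := by
  choose x y h using fun β : Fin k → Bool => exists_ch hk (bOf β) (bOf_mem β)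
  refine count_abs (fun β => latt m (x β) (y β)) (fun β => latt_fin (h β)) (k - 1)
    (3 * 2 ^ m * (5 * k + 10 + m)) ((5 * k + 10 + m) ^ (m + 2)) (fun β => (face_card (h β)).1)
    (fun β => face_lower (h β)) (fun β => (face_card (h β)).2) fun β₀ => ?_
  refine (fiber_abs (by omega) (fun β => latt m (x β) (y β)) (base m)
    (fun β => pt (x β 1) (y β 1) 1) (5 * k + 10 + m) (fun β s hs => base_sub (h β) hs)
    (fun β => spine_min (h β) (by omega)) (fun β => (minima_card (h β)).1)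
    (fun β => (minima_card (h β)).2) (fun β β' φ hφ hB h1 => ?_) β₀).trans ?_
  · exact bOf_inj fun i hi1 hi2 => recon (h β) (h β') hφ hB h1 i hi1 hi2
  · rw [base_card]

end Pool.Agent.MVC
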