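import Pool.Agent.MVC.Iso

/-!
Minkowski-Voronoi complexes of sublattices of `ℤ^n`: the pigeonhole argument and the estimates.
-/

set_option autoImplicit false

open scoped Classical

namespace Pool.Agent.MVC

variable {n : ℕ}

theorem count_abs {k : ℕ} (G : (Fin k → Bool) → AddSubgroup (Fin n → ℤ))
    (hG : ∀ β, (G β).FiniteIndex) (lo hi D : ℕ)
    (hfin : ∀ β, {T : Finset (Fin n → ℤ) | IsFace (G β) T ∧ T.card = n}.Finite)
    (hlo : ∀ β, lo ≤ {T : Finset (Fin n → ℤ) | IsFace (G β) T ∧ T.card = n}.ncard)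
    (hhi : ∀ β, {T : Finset (Fin n → ℤ) | IsFace (G β) T ∧ T.card = n}.ncard ≤ hi)
    (hD : ∀ β₀, (Finset.univ.filter fun β => Same (G β) (G β₀)).card ≤ D) :
    ∃ N, lo ≤ N ∧ N ≤ hi ∧ ∃ r : ℕ, 2 ^ k ≤ (hi + 1) * (D * r) ∧ (r : ℕ∞) ≤ cnt n N := by
  set v : (Fin k → Bool) → ℕ := fun β =>
    {T : Finset (Fin n → ℤ) | IsFace (G β) T ∧ T.card = n}.ncard with hv
  have hcard : (Finset.univ : Finset (Fin k → Bool)).card = 2 ^ k := by
    rw [Finset.card_univ, Fintype.card_fun, Fintype.card_bool, Fintype.card_fin]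
  -- pigeonhole
  have h1 : ∃ N ∈ Finset.range (hi + 1),
      2 ^ k ≤ (hi + 1) * (Finset.univ.filter fun β => v β = N).card := by
    by_contra hcon
    push Not at hcon
    have h2 : (Finset.univ : Finset (Fin k → Bool)).card =
        ∑ N ∈ Finset.range (hi + 1), (Finset.univ.filter fun β => v β = N).card :=
      Finset.card_eq_sum_card_fiberwise fun β _ => by
        simpa using Nat.lt_succ_of_le (hhi β)
    have h3 : (hi + 1) * 2 ^ k < (hi + 1) * 2 ^ k := by
      calc (hi + 1) * 2 ^ k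
          = (hi + 1) * ∑ N ∈ Finset.range (hi + 1), (Finset.univ.filter fun β => v β = N).card := by
            rw [← h2, hcard]
        _ = ∑ N ∈ Finset.range (hi + 1),
            (hi + 1) * (Finset.univ.filter fun β => v β = N).card := Finset.mul_sum _ _ _
        _ < ∑ N ∈ Finset.range (hi + 1), 2 ^ k :=
            Finset.sum_lt_sum_of_nonempty (by simp) hcon
        _ = (hi + 1) * 2 ^ k := by rw [Finset.sum_const, Finset.card_range, smul_eq_mul]
    exact lt_irrefl _ h3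
  obtain ⟨N, hN, h2⟩ := h1
  have hne : (Finset.univ.filter fun β => v β = N).Nonempty := by
    rw [← Finset.card_pos]
    by_contra h3
    push Not at h3
    have h4 : (Finset.univ.filter fun β => v β = N).card = 0 := by omega
    rw [h4, mul_zero] at h2
    have h5 : 0 < 2 ^ k := by positivity
    omega
  obtain ⟨β₁, hβ₁⟩ := hne
  have hβ₁' : v β₁ = N := (Finset.mem_filter.1 hβ₁).2
  refine ⟨N, ?_, ?_, ?_⟩
  · rw [← hβ₁']
    exact hlo β₁
  · rw [← hβ₁']
    exact hhi β₁
  -- the lattices with `N` vertices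
  have hen : ∀ β : {β // v β = N},
      {T : Finset (Fin n → ℤ) | IsFace (G β.1) T ∧ T.card = n}.encard = N := by
    intro β
    rw [← (hfin β.1).cast_ncard_eq]
    exact congrArg _ β.2
  set q : {β // v β = N} → Quotient (sameSetoid n N) := fun β =>
    Quotient.mk (sameSetoid n N) ⟨G β.1, hG β.1, hen β⟩ with hq
  have hqD : ∀ a ∈ (Finset.univ : Finset {β // v β = N}).image q,
      ((Finset.univ : Finset {β // v β = N}).filter fun β => q β = a).card ≤ D := by
    intro a ha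
    obtain ⟨β₀, -, rfl⟩ := Finset.mem_image.1 ha
    refine le_trans ?_ (hD β₀.1)
    refine Finset.card_le_card_of_injOn (fun β => β.1) (fun β hβ => ?_) ?_
    · have h3 : q β = q β₀ := (Finset.mem_filter.1 hβ).2
      have h4 : Same (G β.1) (G β₀.1) := Quotient.exact h3
      simpa using h4
    · intro β _ β' _ h3
      exact Subtype.ext h3
  have h3 := Finset.card_le_mul_card_image (Finset.univ : Finset {β // v β = N}) D hqD
  refine ⟨((Finset.univ : Finset {β // v β = N}).image q).card, ?_, ?_⟩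
  · have h4 : (Finset.univ : Finset {β // v β = N}).card =
        (Finset.univ.filter fun β => v β = N).card := by
      rw [Finset.card_univ, Fintype.card_subtype]
    rw [h4] at h3
    exact h2.trans (Nat.mul_le_mul_left _ h3)
  · unfold cnt
    rw [← Set.encard_coe_eq_coe_finsetCard, ← Set.encard_univ]
    exact Set.encard_le_encard (Set.subset_univ _)

theorem asym (m : ℕ) (H : ∀ k, 2 ≤ k → ∃ N, k - 1 ≤ N ∧ N ≤ 3 * 2 ^ m * (5 * k + 10 + m) ∧
      ∃ r : ℕ, 2 ^ k ≤ (3 * 2 ^ m * (5 * k + 10 + m) + 1) * ((5 * k + 10 + m) ^ (m + 2) * r) ∧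
        (r : ℕ∞) ≤ cnt (m + 3) N) :
    ∃ (c : ℝ) (C : ℕ), 0 < c ∧ ∀ M : ℕ, 1 ≤ M → ∃ N, M ≤ N ∧ N ≤ C * M ∧
      ∃ r : ℕ, Real.exp (c * N) ≤ r ∧ (r : ℕ∞) ≤ cnt (m + 3) N := by
  set E : ℕ := 3 * 2 ^ m * (15 + m) + 1 with hE
  have h2m : 1 ≤ 2 ^ m := Nat.one_le_two_pow
  have hE1 : 15 + m ≤ E := by
    rw [hE]
    nlinarith
  have hE0 : (0 : ℝ) < E := by
    have : 0 < E := by omega
    exact_mod_cast this
  have hlog : (0 : ℝ) < Real.log 2 := Real.log_pos (by norm_num)
  set b : ℝ := Real.log 2 / 2 with hb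
  have hb0 : 0 < b := by positivity
  -- the polynomial is at most the exponential
  have hpoly : ∃ K : ℕ, ∀ k : ℕ, K ≤ k → ((E : ℝ) * k) ^ (m + 3) ≤ Real.exp (b * k) := by
    have h1 := isLittleO_pow_exp_pos_mul_atTop (k := m + 3) hb0
    have h2 := h1.def (c := ((E : ℝ) ^ (m + 3))⁻¹) (by positivity)
    have h3 := tendsto_natCast_atTop_atTop (R := ℝ) |>.eventually h2
    obtain ⟨K, hK⟩ := Filter.eventually_atTop.1 h3
    refine ⟨K, fun k hk => ?_⟩
    have h4 := hK k hk
    rw [Real.norm_of_nonneg (by positivity), Real.norm_of_nonneg (Real.exp_pos _).le] at h4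
    rw [mul_pow]
    calc (E : ℝ) ^ (m + 3) * (k : ℝ) ^ (m + 3)
        ≤ (E : ℝ) ^ (m + 3) * (((E : ℝ) ^ (m + 3))⁻¹ * Real.exp (b * k)) :=
          mul_le_mul_of_nonneg_left h4 (by positivity)
      _ = Real.exp (b * k) := by
          rw [← mul_assoc, mul_inv_cancel₀ (by positivity), one_mul]
  obtain ⟨K, hK⟩ := hpoly
  refine ⟨b / E, E * (K + 2), by positivity, fun M hM => ?_⟩
  set k : ℕ := (K + 2) * M with hk
  have hk1 : K + 2 ≤ k := by
    rw [hk]
    nlinarith
  have hkM : 2 * M ≤ k := by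
    rw [hk]
    nlinarith
  obtain ⟨N, h1, h2, r, h3, h4⟩ := H k (by omega)
  have hB : 3 * 2 ^ m * (5 * k + 10 + m) + 1 ≤ E * k := by
    have h5 : 5 * k + 10 + m ≤ (15 + m) * k := by nlinarith
    have h6 : 3 * 2 ^ m * (5 * k + 10 + m) ≤ 3 * 2 ^ m * ((15 + m) * k) :=
      Nat.mul_le_mul_left _ h5
    have h7 : E * k = 3 * 2 ^ m * ((15 + m) * k) + k := by
      rw [hE]
      ring
    omega
  have hD : (5 * k + 10 + m) ^ (m + 2) ≤ (E * k) ^ (m + 2) := by
    apply Nat.pow_le_pow_left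
    have h5 : 5 * k + 10 + m ≤ (15 + m) * k := by nlinarith
    exact h5.trans (Nat.mul_le_mul_right _ hE1)
  refine ⟨N, by omega, ?_, r, ?_, h4⟩
  · have h5 : N ≤ E * k := by omega
    calc N ≤ E * k := h5
      _ = E * (K + 2) * M := by rw [hk]; ring
  · have h5 : (2 : ℝ) ^ k ≤ ((E : ℝ) * k) ^ (m + 3) * r := by
      have h6 : 2 ^ k ≤ (E * k) * ((E * k) ^ (m + 2) * r) :=
        h3.trans (Nat.mul_le_mul hB (Nat.mul_le_mul_right _ hD))
      have h7 : (2 : ℝ) ^ k ≤ ((E : ℝ) * k) * (((E : ℝ) * k) ^ (m + 2) * r) := by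
        exact_mod_cast h6
      calc (2 : ℝ) ^ k ≤ ((E : ℝ) * k) * (((E : ℝ) * k) ^ (m + 2) * r) := h7
        _ = ((E : ℝ) * k) ^ (m + 3) * r := by ring
    have h6 : (2 : ℝ) ^ k = Real.exp (b * k) * Real.exp (b * k) := by
      rw [← Real.exp_add, hb, ← add_mul, add_halves, mul_comm, Real.exp_nat_mul,
        Real.exp_log (by norm_num)]
    have h7 : Real.exp (b * k) ≤ r := by
      have h8 := hK k (by omega)
      have h9 : Real.exp (b * k) * Real.exp (b * k) ≤ Real.exp (b * k) * r := by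
        rw [← h6]
        exact h5.trans (mul_le_mul_of_nonneg_right h8 (Nat.cast_nonneg r))
      exact le_of_mul_le_mul_left h9 (Real.exp_pos _)
    refine le_trans (Real.exp_le_exp.2 ?_) h7
    have h8 : (N : ℝ) ≤ E * k := by
      have : N ≤ E * k := by omega
      exact_mod_cast this
    calc b / E * N ≤ b / E * (E * k) := mul_le_mul_of_nonneg_left h8 (by positivity)
      _ = b * k := by field_simp

end Pool.Agent.MVC
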