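import Mathlib

/-!
Minkowski-Voronoi complexes of sublattices of `ℤ^n` (MP_2581ba_nt): definitions.
-/

set_option autoImplicit false

open scoped Classical

namespace Pool.Agent.MVC

variable {n : ℕ}

/-- The set `|Γ|`: the coordinatewise absolute values of the nonzero points of `Γ`. -/
def absSet (Γ : AddSubgroup (Fin n → ℤ)) : Set (Fin n → ℤ) :=
  {s | ∃ v ∈ Γ, v ≠ 0 ∧ s = fun i => |v i|}

/-- The Voronoi relative minima of `|Γ|`. -/
def minima (Γ : AddSubgroup (Fin n → ℤ)) : Set (Fin n → ℤ) :=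
  {s | s ∈ absSet Γ ∧ ∀ t ∈ absSet Γ, (∀ i, t i ≤ s i) → t = s}

/-- The faces of `MV(|Γ|)`: the minimal sets `T` with `1 ≤ |T| ≤ n` (the box of `T` contains no further relative minimum). -/
def IsFace (Γ : AddSubgroup (Fin n → ℤ)) (T : Finset (Fin n → ℤ)) : Prop :=
  T.Nonempty ∧ T.card ≤ n ∧ (∀ s ∈ T, s ∈ minima Γ) ∧ ∀ s ∈ minima Γ, (∀ i, ∃ t ∈ T, s i ≤ t i) → s ∈ T

/-- Adjacency of two different faces. -/
def Adj (T U : Finset (Fin n → ℤ)) : Prop := T ≠ U ∧ (T ⊆ U ∨ U ⊆ T)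

/-- The complexes of `Γ` and `Γ'` are the same: a bijection of the faces preserves dimension and adjacency. -/
def Same (Γ Γ' : AddSubgroup (Fin n → ℤ)) : Prop :=
  ∃ e : {T : Finset (Fin n → ℤ) // IsFace Γ T} ≃ {T : Finset (Fin n → ℤ) // IsFace Γ' T},
    (∀ T, (e T).1.card = T.1.card) ∧ ∀ T U, Adj (e T).1 (e U).1 ↔ Adj T.1 U.1

/-- The full-rank sublattices whose complex has exactly `N` vertices. -/
def Lat (n N : ℕ) : Type :=
  {Γ : AddSubgroup (Fin n → ℤ) // Γ.FiniteIndex ∧ {T : Finset (Fin n → ℤ) | IsFace Γ T ∧ T.card = n}.encard = N}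

theorem Same.refl (Γ : AddSubgroup (Fin n → ℤ)) : Same Γ Γ :=
  ⟨Equiv.refl _, fun _ => rfl, fun _ _ => Iff.rfl⟩

theorem Same.symm {Γ Γ' : AddSubgroup (Fin n → ℤ)} (h : Same Γ Γ') : Same Γ' Γ := by
  obtain ⟨e, h1, h2⟩ := h
  refine ⟨e.symm, fun T => ?_, fun T U => ?_⟩
  · have := h1 (e.symm T); simpa using this.symm
  · have := h2 (e.symm T) (e.symm U); simpa using this.symm

theorem Same.trans {Γ Γ' Γ'' : AddSubgroup (Fin n → ℤ)} (h : Same Γ Γ') (h' : Same Γ' Γ'') : Same Γ Γ'' := by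
  obtain ⟨e, h1, h2⟩ := h
  obtain ⟨e', h1', h2'⟩ := h'
  exact ⟨e.trans e', fun T => (h1' (e T)).trans (h1 T), fun T U => (h2' (e T) (e U)).trans (h2 T U)⟩

/-- Two lattices are equivalent if their complexes are the same. -/
def sameSetoid (n N : ℕ) : Setoid (Lat n N) where
  r := fun Γ Γ' => Same Γ.1 Γ'.1
  iseqv := ⟨fun _ => Same.refl _, fun h => h.symm, fun h h' => h.trans h'⟩

/-- `c_n(N)`. -/
noncomputable def cnt (n N : ℕ) : ℕ∞ := ENat.card (Quotient (sameSetoid n N))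

/-! ### The family -/

/-- The two chains with partial quotients `b 1, …, b k` in `{2, 4}`. -/
structure Ch (k : ℕ) (b x y : ℕ → ℤ) : Prop where
  k2 : 2 ≤ k
  hb : ∀ i, 1 ≤ i → i ≤ k → b i = 2 ∨ b i = 4
  y0 : y 0 = 0
  y1 : y 1 = 1
  hy : ∀ i, i < k → y (i + 2) = b (i + 1) * y (i + 1) + y i
  xk1 : x (k + 1) = 0
  xk : x k = 1
  hx : ∀ i, i < k → x i = b (i + 1) * x (i + 1) + x (i + 2)

/-- `(X, Y, z)` lies in the lattice (in the basis number `i`). -/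
def InL (x y : ℕ → ℤ) (i : ℕ) (X Y z : ℤ) : Prop :=
  ∃ p q : ℤ, X = (-1) ^ i * (p * x i - q * x (i + 1)) ∧ Y = p * y i + q * y (i + 1) ∧ (2 : ℤ) ∣ z - p - q

/-- `(X, Y)` is a leaf at the place `i`. -/
def Leaf (k : ℕ) (b x y : ℕ → ℤ) (i : ℕ) (X Y : ℤ) : Prop :=
  (i = 0 ∧ X = 2 * x 0 ∧ Y = 0) ∨ (i = k + 1 ∧ X = 0 ∧ Y = 2 * y (k + 1)) ∨
  ∃ j, i = j + 1 ∧ j < k ∧ ((X = x j - x (j + 1) ∧ Y = y j + y (j + 1)) ∨
    (X = x (j + 1) + x (j + 2) ∧ Y = y (j + 2) - y (j + 1)) ∨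
    (b (j + 1) = 4 ∧ X = 2 * x (j + 1) ∧ Y = 2 * y (j + 1)))

/-- A point of `ℤ^(m+3)` with the first three coordinates `X, Y, Z` and zeros. -/
def pt {m : ℕ} (X Y Z : ℤ) : Fin (m + 3) → ℤ :=
  fun j => if j.1 = 0 then X else if j.1 = 1 then Y else if j.1 = 2 then Z else 0

/-- The lattice of the chains `x, y` in `ℤ^(m+3)`. -/
def latt (m : ℕ) (x y : ℕ → ℤ) : AddSubgroup (Fin (m + 3) → ℤ) where
  carrier := {v | InL x y 0 (v 0) (v 1) (v 2)}
  zero_mem' := ⟨0, 0, by simp, by simp, by simp⟩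
  add_mem' := by
    rintro v w ⟨p, q, h1, h2, h3⟩ ⟨p', q', h1', h2', h3'⟩
    refine ⟨p + p', q + q', ?_, ?_, ?_⟩
    · simp only [Pi.add_apply, h1, h1']; ring
    · simp only [Pi.add_apply, h2, h2']; ring
    · obtain ⟨c, hc⟩ := h3
      obtain ⟨c', hc'⟩ := h3'
      refine ⟨c + c', ?_⟩
      simp only [Pi.add_apply]
      linarith
  neg_mem' := by
    rintro v ⟨p, q, h1, h2, h3⟩
    refine ⟨-p, -q, ?_, ?_, ?_⟩
    · simp only [Pi.neg_apply, h1]; ring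
    · simp only [Pi.neg_apply, h2]; ring
    · obtain ⟨c, hc⟩ := h3
      refine ⟨-c, ?_⟩
      simp only [Pi.neg_apply]
      linarith

/-- The marked points: `t = (0, 0, 2)` and the unit vectors `e_4, …, e_n`. -/
noncomputable def base (m : ℕ) : Finset (Fin (m + 3) → ℤ) :=
  insert (pt 0 0 2) ((Finset.univ.filter (fun j : Fin (m + 3) => 3 ≤ j.1)).image (fun j => Pi.single j (1 : ℤ)))

/-- The link of `B`. -/
def Lk (Γ : AddSubgroup (Fin n → ℤ)) (B : Finset (Fin n → ℤ)) (u w : Fin n → ℤ) : Prop :=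
  u ≠ w ∧ u ∉ B ∧ w ∉ B ∧ IsFace Γ (B ∪ {u, w})

/-- `φ` is an isomorphism of the hypergraphs of faces. -/
structure HIso (Γ Γ' : AddSubgroup (Fin n → ℤ)) (φ : (Fin n → ℤ) → (Fin n → ℤ)) : Prop where
  bij : Set.BijOn φ (minima Γ) (minima Γ')
  face : ∀ T : Finset (Fin n → ℤ), (∀ s ∈ T, s ∈ minima Γ) → (IsFace Γ T ↔ IsFace Γ' (T.image φ))

end Pool.Agent.MVC
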