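import Pool.Agent.MVC.Chain

/-!
Minkowski-Voronoi complexes: domination in the plane; the leaves.
-/

set_option autoImplicit false

namespace Pool.Agent.MVC

variable {k : ℕ} {b x y : ℕ → ℤ}

theorem inL_norm {i : ℕ} {X Y z : ℤ} (h : InL x y i X Y z) (hne : X ≠ 0 ∨ Y ≠ 0) :
    ∃ p q : ℤ, (0 < p ∨ (p = 0 ∧ 0 < q)) ∧ |X| = |p * x i - q * x (i + 1)| ∧ |Y| = |p * y i + q * y (i + 1)| ∧
      (2 : ℤ) ∣ z - p - q := by
  obtain ⟨p, q, h1, h2, h3⟩ := inL_abs h
  have hpq : p ≠ 0 ∨ q ≠ 0 := by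
    by_contra hcon
    push Not at hcon
    rw [hcon.1, hcon.2] at h1 h2
    simp at h1 h2
    rcases hne with h | h
    · exact h h1
    · exact h h2
  by_cases hs : 0 < p ∨ (p = 0 ∧ 0 < q)
  · exact ⟨p, q, hs, h1, h2, h3⟩
  · refine ⟨-p, -q, by omega, ?_, ?_, by omega⟩
    · rw [h1, show -p * x i - -q * x (i + 1) = -(p * x i - q * x (i + 1)) by ring, abs_neg]
    · rw [h2, show -p * y i + -q * y (i + 1) = -(p * y i + q * y (i + 1)) by ring, abs_neg]

theorem Ch.level (h : Ch k b x y) (Y : ℤ) (hY : 0 ≤ Y) : y (k + 1) ≤ Y ∨ ∃ i, i ≤ k ∧ y i ≤ Y ∧ Y < y (i + 1) := by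
  by_contra hcon
  push Not at hcon
  obtain ⟨h1, h2⟩ := hcon
  have : ∀ i, i ≤ k + 1 → y i ≤ Y := by
    intro i
    induction i with
    | zero => intro _; rw [h.y0]; exact hY
    | succ i ih => intro hi; exact h2 i (by omega) (ih (by omega))
  linarith [this (k + 1) le_rfl]

theorem dom1 (h : Ch k b x y) {X Y z : ℤ} (hL : InL x y 0 X Y z) (hne : X ≠ 0 ∨ Y ≠ 0) :
    ∃ i, i ≤ k + 1 ∧ x i ≤ |X| ∧ y i ≤ |Y| := by
  rcases h.level |Y| (abs_nonneg _) with h1 | ⟨i, hi, h1, h2⟩
  · exact ⟨k + 1, le_rfl, by rw [h.xk1]; exact abs_nonneg _, h1⟩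
  · refine ⟨i, by omega, ?_, h1⟩
    obtain ⟨p, q, hs, e1, e2, _⟩ := inL_norm ((inL_iff h i hi X Y z).1 hL) hne
    have hy1 : 0 ≤ y i := h.y_nonneg i (by omega)
    have hy2 : 0 < y (i + 1) := h.y_pos (i + 1) (by omega) (by omega)
    have hx1 : 0 < x i := h.x_pos i hi
    have hx2 : 0 ≤ x (i + 1) := h.x_nonneg (i + 1) (by omega)
    rcases hs with hp | ⟨hp, hq⟩
    · rcases le_or_gt q 0 with hq | hq
      · rw [e1]
        refine le_trans ?_ (le_abs_self _)
        nlinarith [mul_nonneg (neg_nonneg.2 hq) hx2, mul_nonneg (show (0 : ℤ) ≤ p - 1 by omega) hx1.le]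
      · exfalso
        rw [e2] at h2
        have := le_abs_self (p * y i + q * y (i + 1))
        nlinarith [mul_nonneg hp.le hy1, mul_nonneg (show (0 : ℤ) ≤ q - 1 by omega) hy2.le]
    · exfalso
      rw [e2, hp] at h2
      have := le_abs_self (0 * y i + q * y (i + 1))
      nlinarith [mul_nonneg (show (0 : ℤ) ≤ q - 1 by omega) hy2.le]

theorem Ch.y_succ (h : Ch k b x y) (j : ℕ) (hj : j < k) : y (j + 2) = b (j + 1) * y (j + 1) + y j := h.hy j hj

/-- the leaf `s` at the place `j + 1` -/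
theorem leaf_s (_h : Ch k b x y) (j : ℕ) (hj : j < k) : Leaf k b x y (j + 1) (x j - x (j + 1)) (y j + y (j + 1)) :=
  Or.inr (Or.inr ⟨j, rfl, hj, Or.inl ⟨rfl, rfl⟩⟩)

theorem leaf_d (_h : Ch k b x y) (j : ℕ) (hj : j < k) :
    Leaf k b x y (j + 1) (x (j + 1) + x (j + 2)) (y (j + 2) - y (j + 1)) :=
  Or.inr (Or.inr ⟨j, rfl, hj, Or.inr (Or.inl ⟨rfl, rfl⟩)⟩)

theorem two_dom (h : Ch k b x y) (i : ℕ) (hi : i ≤ k + 1) :
    ∃ X Y, Leaf k b x y i X Y ∧ X ≤ 2 * x i ∧ Y ≤ 2 * y i := by
  rcases Nat.eq_zero_or_pos i with h0 | h0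
  · exact ⟨2 * x 0, 0, Or.inl ⟨h0, rfl, rfl⟩, by rw [h0], by rw [h0, h.y0]; norm_num⟩
  rcases Nat.lt_or_ge k i with h1 | h1
  · have : i = k + 1 := by omega
    exact ⟨0, 2 * y (k + 1), Or.inr (Or.inl ⟨this, rfl, rfl⟩), by rw [this, h.xk1]; norm_num, by rw [this]⟩
  obtain ⟨j, rfl⟩ : ∃ j, i = j + 1 := ⟨i - 1, by omega⟩
  have hj : j < k := by omega
  rcases h.hb (j + 1) (by omega) (by omega) with hb | hb
  · refine ⟨_, _, leaf_s h j hj, ?_, ?_⟩
    · have h2 := h.hx j hj
      rw [hb] at h2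
      have h3 := h.x_lt (j + 1) (j + 2) (by omega) (by omega)
      linarith
    · have h3 := h.y_lt j (j + 1) (by omega) (by omega)
      linarith
  · exact ⟨2 * x (j + 1), 2 * y (j + 1), Or.inr (Or.inr ⟨j, rfl, hj, Or.inr (Or.inr ⟨hb, rfl, rfl⟩)⟩), le_rfl, le_rfl⟩

theorem dom0 (h : Ch k b x y) {X Y z : ℤ} (hL : InL x y 0 X Y z) (hz : (2 : ℤ) ∣ z) (hne : X ≠ 0 ∨ Y ≠ 0) :
    ∃ i X' Y', Leaf k b x y i X' Y' ∧ X' ≤ |X| ∧ Y' ≤ |Y| := by
  have hk := h.k2
  rcases h.level |Y| (abs_nonneg _) with h1 | ⟨i, hi, h1, h2⟩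
  · obtain ⟨p, q, hs, e1, e2, h3⟩ := inL_norm ((inL_iff h k le_rfl X Y z).1 hL) hne
    have hy2 : 0 < y (k + 1) := h.y_pos (k + 1) (by omega) (by omega)
    rcases hs with hp | ⟨hp, hq⟩
    · obtain ⟨j, rfl⟩ : ∃ j, k = j + 1 := ⟨k - 1, by omega⟩
      refine ⟨_, _, _, leaf_d h j (by omega), ?_, ?_⟩
      · rw [e1, h.xk1, h.xk]
        refine le_trans ?_ (le_abs_self _)
        linarith
      · have := h.y_nonneg (j + 1) (by omega)
        have e3 : y (j + 2) = y (j + 1 + 1) := rfl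
        linarith
    · refine ⟨k + 1, 0, 2 * y (k + 1), Or.inr (Or.inl ⟨rfl, rfl, rfl⟩), abs_nonneg _, ?_⟩
      rw [e2, hp]
      refine le_trans ?_ (le_abs_self _)
      have : 2 ≤ q := by omega
      nlinarith [mul_nonneg (show (0 : ℤ) ≤ q - 2 by omega) hy2.le]
  · rcases Nat.eq_zero_or_pos i with h0 | h0
    · -- level 0
      subst h0
      obtain ⟨p, q, hs, e1, e2, h3⟩ := inL_norm hL hne
      rw [h.y0] at h1
      rw [h.y1] at h2
      have hY : |Y| = 0 := by omega
      rw [hY, h.y0, h.y1] at e2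
      have hq : q = 0 := by
        have : |p * 0 + q * 1| = 0 := e2.symm
        rw [abs_eq_zero] at this
        linarith
      subst hq
      have hp : 2 ≤ p := by omega
      refine ⟨0, 2 * x 0, 0, Or.inl ⟨rfl, rfl, rfl⟩, ?_, abs_nonneg _⟩
      rw [e1]
      refine le_trans ?_ (le_abs_self _)
      have hx1 : 0 < x 0 := h.x_pos 0 (by omega)
      nlinarith [mul_nonneg (show (0 : ℤ) ≤ p - 2 by omega) hx1.le]
    · obtain ⟨j, rfl⟩ : ∃ j, i = j + 1 := ⟨i - 1, by omega⟩
      have hj : j < k := by omega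
      obtain ⟨p, q, hs, e1, e2, h3⟩ := inL_norm ((inL_iff h j (by omega) X Y z).1 hL) hne
      have hx0 : 0 < x j := h.x_pos j (by omega)
      have hx1 : 0 < x (j + 1) := h.x_pos (j + 1) (by omega)
      have hx2 : 0 ≤ x (j + 2) := h.x_nonneg (j + 2) (by omega)
      have hy0 : 0 ≤ y j := h.y_nonneg j (by omega)
      have hy1 : 0 < y (j + 1) := h.y_pos (j + 1) (by omega) (by omega)
      have hxx := h.hx j hj
      have hyy := h.hy j hj
      have hbb := h.hb (j + 1) (by omega) (by omega)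
      rcases hs with hp | ⟨hp, hq⟩
      · rcases lt_trichotomy q 0 with hq | hq | hq
        · -- opposite signs
          have hX : x j + x (j + 1) ≤ |X| := by
            rw [e1]
            refine le_trans ?_ (le_abs_self _)
            nlinarith [mul_nonneg (show (0 : ℤ) ≤ -q - 1 by omega) hx1.le, mul_nonneg (show (0 : ℤ) ≤ p - 1 by omega) hx0.le]
          rcases Nat.eq_zero_or_pos j with hj0 | hj0
          · subst hj0
            refine ⟨_, _, _, leaf_s h 0 hj, by linarith, ?_⟩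
            rw [h.y0]; linarith
          · obtain ⟨l, rfl⟩ : ∃ l, j = l + 1 := ⟨j - 1, by omega⟩
            refine ⟨_, _, _, leaf_d h l (by omega), hX, ?_⟩
            have e3 : y (l + 2) = y (l + 1 + 1) := rfl
            linarith
        · -- q = 0
          subst hq
          have hp2 : 2 ≤ p := by omega
          obtain ⟨X', Y', hl, hX', hY'⟩ := two_dom h j (by omega)
          refine ⟨j, X', Y', hl, ?_, ?_⟩
          · refine le_trans hX' ?_
            rw [e1]
            refine le_trans ?_ (le_abs_self _)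
            nlinarith [mul_nonneg (show (0 : ℤ) ≤ p - 2 by omega) hx0.le]
          · refine le_trans hY' ?_
            rw [e2]
            refine le_trans ?_ (le_abs_self _)
            nlinarith [mul_nonneg (show (0 : ℤ) ≤ p - 2 by omega) hy0]
        · -- same signs
          have hYv : p * y j + q * y (j + 1) ≤ |Y| := by rw [e2]; exact le_abs_self _
          have hXv : p * x j - q * x (j + 1) ≤ |X| := by rw [e1]; exact le_abs_self _
          have hqb : q < b (j + 1) := by
            by_contra hcon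
            push Not at hcon
            have h4 : b (j + 1) * y (j + 1) ≤ q * y (j + 1) := mul_le_mul_of_nonneg_right hcon hy1.le
            have h5 : y j ≤ p * y j := by nlinarith [mul_nonneg (show (0 : ℤ) ≤ p - 1 by omega) hy0]
            have e3 : y (j + 1 + 1) = y (j + 2) := rfl
            rw [e3] at h2
            linarith
          have hpx : 0 ≤ (p - 1) * x j := mul_nonneg (by omega) hx0.le
          have hpy : 0 ≤ (p - 1) * y j := mul_nonneg (by omega) hy0
          have hqy : 0 ≤ (q - 1) * y (j + 1) := mul_nonneg (by omega) hy1.le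
          have hq3 : q = 1 ∨ q = 2 ∨ (q = 3 ∧ b (j + 1) = 4) := by omega
          rcases hq3 with hq1 | hq1 | ⟨hq1, hb4⟩
          · subst hq1
            exact ⟨_, _, _, leaf_s h j hj, by linarith, by linarith⟩
          · subst hq1
            have hp2 : 2 ≤ p := by omega
            have hpx2 : 0 ≤ (p - 2) * x j := mul_nonneg (by omega) hx0.le
            have hlt := (h.x_lt_succ j (by omega)).2
            exact ⟨_, _, _, leaf_s h j hj, by linarith, by linarith⟩
          · subst hq1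
            rw [hb4] at hxx hyy
            exact ⟨_, _, _, leaf_d h j hj, by linarith, by linarith⟩
      · -- p = 0
        subst hp
        have hq2 : 2 ≤ q := by omega
        obtain ⟨X', Y', hl, hX', hY'⟩ := two_dom h (j + 1) (by omega)
        refine ⟨j + 1, X', Y', hl, ?_, ?_⟩
        · refine le_trans hX' ?_
          rw [e1, show (0 : ℤ) * x j - q * x (j + 1) = -(q * x (j + 1)) by ring, abs_neg]
          refine le_trans ?_ (le_abs_self _)
          nlinarith [mul_nonneg (show (0 : ℤ) ≤ q - 2 by omega) hx1.le]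
        · refine le_trans hY' ?_
          rw [e2]
          refine le_trans ?_ (le_abs_self _)
          nlinarith [mul_nonneg (show (0 : ℤ) ≤ q - 2 by omega) hy1.le]

end Pool.Agent.MVC
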