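import Pool.Agent.MVC.Defs

/-!
Minkowski-Voronoi complexes of sublattices of `ℤ^n`: isomorphisms of the hypergraphs of faces.
-/

set_option autoImplicit false

open scoped Classical

namespace Pool.Agent.MVC

variable {n : ℕ}

theorem isFace_singleton (hn : 1 ≤ n) {Γ : AddSubgroup (Fin n → ℤ)} {s : Fin n → ℤ} :
    IsFace Γ {s} ↔ s ∈ minima Γ := by
  constructor
  · intro h
    exact h.2.2.1 s (Finset.mem_singleton_self s)
  · intro h
    refine ⟨Finset.singleton_nonempty s, by simpa using hn, fun t ht => ?_, fun t ht h1 => ?_⟩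
    · rw [Finset.mem_singleton] at ht
      rwa [ht]
    · rw [Finset.mem_singleton]
      refine h.2 t ht.1 fun i => ?_
      obtain ⟨u, hu, h2⟩ := h1 i
      rw [Finset.mem_singleton] at hu
      rwa [hu] at h2

theorem adj_singleton {s : Fin n → ℤ} {T : Finset (Fin n → ℤ)} (hT : 2 ≤ T.card) :
    Adj {s} T ↔ s ∈ T := by
  constructor
  · rintro ⟨-, h | h⟩
    · exact Finset.singleton_subset_iff.1 h
    · have h1 := Finset.card_le_card h
      rw [Finset.card_singleton] at h1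
      omega
  · intro h
    refine ⟨fun h1 => ?_, Or.inl (Finset.singleton_subset_iff.2 h)⟩
    rw [← h1, Finset.card_singleton] at hT
    omega

theorem iso_of_same (hn : 2 ≤ n) {Γ Γ' : AddSubgroup (Fin n → ℤ)} (h : Same Γ Γ') :
    ∃ φ, HIso Γ Γ' φ := by
  obtain ⟨e, hc, ha⟩ := h
  have hn1 : 1 ≤ n := by omega
  have h1 : ∀ s : minima Γ, ∃ t : Fin n → ℤ,
      (e ⟨{s.1}, (isFace_singleton hn1).2 s.2⟩).1 = {t} := by
    intro s
    have h2 := hc ⟨{s.1}, (isFace_singleton hn1).2 s.2⟩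
    rw [Finset.card_singleton] at h2
    exact Finset.card_eq_one.1 h2
  choose g hg using h1
  have h2 : ∀ s : minima Γ, g s ∈ minima Γ' := by
    intro s
    have h3 := (e ⟨{s.1}, (isFace_singleton hn1).2 s.2⟩).2
    rw [hg] at h3
    exact (isFace_singleton hn1).1 h3
  have ginj : Function.Injective g := by
    intro s t hst
    have h3 : e ⟨{s.1}, (isFace_singleton hn1).2 s.2⟩ =
        e ⟨{t.1}, (isFace_singleton hn1).2 t.2⟩ := by
      apply Subtype.ext
      rw [hg, hg, hst]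
    have h4 := congrArg Subtype.val (e.injective h3)
    exact Subtype.ext (Finset.singleton_injective h4)
  have gsurj : ∀ t ∈ minima Γ', ∃ s, g s = t := by
    intro t ht
    obtain ⟨T, hT⟩ := e.surjective ⟨{t}, (isFace_singleton hn1).2 ht⟩
    have h3 := hc T
    rw [hT, Finset.card_singleton] at h3
    obtain ⟨s, hs⟩ := Finset.card_eq_one.1 h3.symm
    have hs' : s ∈ minima Γ := by
      have h4 := T.2
      rw [hs] at h4
      exact (isFace_singleton hn1).1 h4
    refine ⟨⟨s, hs'⟩, ?_⟩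
    have h5 : T = ⟨{s}, (isFace_singleton hn1).2 hs'⟩ := Subtype.ext hs
    have h6 := hg ⟨s, hs'⟩
    change (e ⟨{s}, (isFace_singleton hn1).2 hs'⟩).1 = _ at h6
    rw [← h5, hT] at h6
    exact (Finset.singleton_injective h6).symm
  set φ : (Fin n → ℤ) → (Fin n → ℤ) := fun s => if h : s ∈ minima Γ then g ⟨s, h⟩ else s with hφ
  have hφg : ∀ (s) (hs : s ∈ minima Γ), φ s = g ⟨s, hs⟩ := by
    intro s hs
    rw [hφ]
    exact dif_pos hs
  have hinj : Set.InjOn φ (minima Γ) := by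
    intro s hs t ht hst
    rw [hφg s hs, hφg t ht] at hst
    exact congrArg Subtype.val (ginj hst)
  have himg : ∀ T : {T : Finset (Fin n → ℤ) // IsFace Γ T}, (e T).1 = T.1.image φ := by
    intro T
    by_cases hT1 : T.1.card = 1
    · obtain ⟨s, hs⟩ := Finset.card_eq_one.1 hT1
      have hs' : s ∈ minima Γ := by
        have h4 := T.2
        rw [hs] at h4
        exact (isFace_singleton hn1).1 h4
      have h5 : T = ⟨{s}, (isFace_singleton hn1).2 hs'⟩ := Subtype.ext hs
      have h6 := hg ⟨s, hs'⟩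
      change (e ⟨{s}, (isFace_singleton hn1).2 hs'⟩).1 = _ at h6
      rw [h5, h6]
      change _ = Finset.image φ {s}
      rw [Finset.image_singleton, hφg s hs']
    · have hT2 : 2 ≤ T.1.card := by
        have h3 : 1 ≤ T.1.card := Finset.card_pos.2 T.2.1
        omega
      have hT2' : 2 ≤ (e T).1.card := by rw [hc]; exact hT2
      have hmem : ∀ (s) (hs : s ∈ minima Γ), s ∈ T.1 ↔ φ s ∈ (e T).1 := by
        intro s hs
        rw [← adj_singleton hT2, ← adj_singleton hT2', hφg s hs, ← hg ⟨s, hs⟩]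
        exact (ha ⟨{s}, (isFace_singleton hn1).2 hs⟩ T).symm
      ext t
      rw [Finset.mem_image]
      constructor
      · intro ht
        obtain ⟨s, hs⟩ := gsurj t ((e T).2.2.2.1 t ht)
        refine ⟨s.1, ?_, ?_⟩
        · rw [hmem s.1 s.2, hφg s.1 s.2, hs]
          exact ht
        · rw [hφg s.1 s.2, hs]
      · rintro ⟨s, hs, rfl⟩
        exact (hmem s (T.2.2.2.1 s hs)).1 hs
  refine ⟨φ, ⟨⟨fun s hs => ?_, hinj, fun t ht => ?_⟩, fun T hT => ⟨fun h => ?_, fun h => ?_⟩⟩⟩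
  · rw [hφg s hs]
    exact h2 _
  · obtain ⟨s, hs⟩ := gsurj t ht
    exact ⟨s.1, s.2, by rw [hφg s.1 s.2, hs]⟩
  · have h3 := (e ⟨T, h⟩).2
    rwa [himg] at h3
  · obtain ⟨U, hU⟩ := e.surjective ⟨T.image φ, h⟩
    have h3 : U.1.image φ = T.image φ := by
      rw [← himg U, hU]
    have h4 : U.1 = T := by
      ext s
      constructor
      · intro hs
        have h5 : φ s ∈ T.image φ := by
          rw [← h3]
          exact Finset.mem_image_of_mem φ hs
        obtain ⟨t, ht, h6⟩ := Finset.mem_image.1 h5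
        rwa [← hinj (hT t ht) (U.2.2.2.1 s hs) h6]
      · intro hs
        have h5 : φ s ∈ U.1.image φ := by
          rw [h3]
          exact Finset.mem_image_of_mem φ hs
        obtain ⟨t, ht, h6⟩ := Finset.mem_image.1 h5
        rwa [← hinj (U.2.2.2.1 t ht) (hT s hs) h6]
    rw [← h4]
    exact U.2

theorem HIso.comp_inv {Γ Γ' Δ : AddSubgroup (Fin n → ℤ)} {φ ψ : (Fin n → ℤ) → (Fin n → ℤ)}
    (h : HIso Γ Δ φ) (h' : HIso Γ' Δ ψ) :
    ∃ χ, HIso Γ Γ' χ ∧ ∀ s ∈ minima Γ, ψ (χ s) = φ s := by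
  have h1 : ∀ s ∈ minima Γ, ∃ t ∈ minima Γ', ψ t = φ s := fun s hs =>
    h'.bij.surjOn (h.bij.mapsTo hs)
  choose! χ hχ hψ using h1
  refine ⟨χ, ⟨⟨hχ, fun s hs t ht hst => ?_, fun t ht => ?_⟩, fun T hT => ?_⟩, hψ⟩
  · apply h.bij.injOn hs ht
    rw [← hψ s hs, ← hψ t ht, hst]
  · obtain ⟨s, hs, h2⟩ := h.bij.surjOn (h'.bij.mapsTo ht)
    refine ⟨s, hs, h'.bij.injOn (hχ s hs) ht ?_⟩
    rw [hψ s hs, h2]
  · rw [h.face T hT, h'.face (T.image χ) (fun s hs => ?_), Finset.image_image]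
    · have h3 : T.image (ψ ∘ χ) = T.image φ :=
        Finset.image_congr fun s hs => hψ s (hT s hs)
      rw [h3]
    · obtain ⟨t, ht, rfl⟩ := Finset.mem_image.1 hs
      exact hχ t (hT t ht)

end Pool.Agent.MVC
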