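import Pool.Agent.MVC.Dom

/-!
Minkowski-Voronoi complexes: facts on the leaves.
-/

set_option autoImplicit false

namespace Pool.Agent.MVC

variable {k : ℕ} {b x y : ℕ → ℤ}

theorem leaf_le (h : Ch k b x y) {i : ℕ} {X Y : ℤ} (hl : Leaf k b x y i X Y) :
    i ≤ k + 1 ∧ x i ≤ X ∧ y i ≤ Y ∧ (∀ j, i = j + 1 → X < x j) ∧ (i ≤ k → Y < y (i + 1)) := by
  have hk := h.k2
  rcases hl with ⟨hi, hX, hY⟩ | ⟨hi, hX, hY⟩ | ⟨j, hi, hj, hh⟩
  · subst hi
    have := h.x_pos 0 (by omega)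
    refine ⟨by omega, by omega, by rw [h.y0]; omega, fun j hj => by omega, fun _ => ?_⟩
    rw [hY, h.y1]; omega
  · subst hi
    have := h.y_pos (k + 1) (by omega) (by omega)
    refine ⟨le_rfl, by rw [h.xk1]; omega, by omega, fun j hj => ?_, fun _ => by omega⟩
    have : j = k := by omega
    rw [this, hX, h.xk]; omega
  · subst hi
    have hx1 := h.x_pos (j + 1) (by omega)
    have hx2 := h.x_nonneg (j + 2) (by omega)
    have hy0 := h.y_nonneg j (by omega)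
    have hy1 := h.y_pos (j + 1) (by omega) (by omega)
    have hxt := h.x_two j hj
    have hyt := h.y_two j hj
    have e1 : y (j + 1 + 1) = y (j + 2) := rfl
    rw [e1]
    refine ⟨by omega, ?_, ?_, ?_, ?_⟩
    · rcases hh with ⟨h1, _⟩ | ⟨h1, _⟩ | ⟨_, h1, _⟩ <;> linarith
    · rcases hh with ⟨_, h1⟩ | ⟨_, h1⟩ | ⟨_, _, h1⟩ <;> linarith
    · intro l hl
      have : l = j := by omega
      rw [this]
      rcases hh with ⟨h1, _⟩ | ⟨h1, _⟩ | ⟨hb, h1, _⟩
      · linarith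
      · linarith
      · have := h.hx j hj
        rw [hb] at this
        linarith
    · intro _
      rcases hh with ⟨_, h1⟩ | ⟨_, h1⟩ | ⟨hb, _, h1⟩
      · linarith
      · linarith
      · have := h.hy j hj
        rw [hb] at this
        linarith

theorem leaf_ne (h : Ch k b x y) {i : ℕ} {X Y : ℤ} (hl : Leaf k b x y i X Y) : ¬ (X ≤ x i ∧ Y ≤ y i) := by
  rintro ⟨hX', hY'⟩
  have hk := h.k2
  rcases hl with ⟨hi, hX, hY⟩ | ⟨hi, hX, hY⟩ | ⟨j, hi, hj, hh⟩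
  · subst hi
    have := h.x_pos 0 (by omega)
    omega
  · subst hi
    have := h.y_pos (k + 1) (by omega) (by omega)
    omega
  · subst hi
    have hx1 := h.x_pos (j + 1) (by omega)
    have hy1 := h.y_pos (j + 1) (by omega) (by omega)
    have hxt := h.x_two j hj
    have hyt := h.y_two j hj
    have key : x (j + 2) ≤ 0 → y j ≤ 0 → False := by
      intro h1 h2
      have h3 : ¬ (j + 2 ≤ k) := fun hc => by linarith [h.x_pos (j + 2) hc]
      have h4 : ¬ (1 ≤ j) := fun hc => by linarith [h.y_pos j hc (by omega)]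
      omega
    rcases hh with ⟨h1, h2⟩ | ⟨h1, h2⟩ | ⟨hb, h1, h2⟩
    · exact key (by linarith) (by linarith)
    · exact key (by linarith) (by linarith)
    · linarith

theorem leaf_anti (h : Ch k b x y) {i i' : ℕ} {X Y X' Y' : ℤ} (hl : Leaf k b x y i X Y) (hl' : Leaf k b x y i' X' Y')
    (hX : X ≤ X') (hY : Y ≤ Y') : i = i' ∧ X = X' ∧ Y = Y' := by
  have hk := h.k2
  obtain ⟨f1, f2, f3, f4, f5⟩ := leaf_le h hl
  obtain ⟨g1, g2, g3, g4, g5⟩ := leaf_le h hl'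
  have hii : i = i' := by
    rcases lt_trichotomy i i' with hc | hc | hc
    · exfalso
      obtain ⟨l, rfl⟩ : ∃ l, i' = l + 1 := ⟨i' - 1, by omega⟩
      have h1 := g4 l rfl
      have h2 := h.x_le i l (by omega) (by omega)
      linarith
    · exact hc
    · exfalso
      have h1 := g5 (by omega)
      have h2 := h.y_le (i' + 1) i (by omega) (by omega)
      linarith
  subst hii
  refine ⟨rfl, ?_⟩
  rcases hl with ⟨hi, a1, a2⟩ | ⟨hi, a1, a2⟩ | ⟨j, hi, hj, hh⟩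
  · rcases hl' with ⟨hi', b1, b2⟩ | ⟨hi', b1, b2⟩ | ⟨j', hi', hj', hh'⟩
    · exact ⟨by rw [a1, b1], by rw [a2, b2]⟩
    · omega
    · omega
  · rcases hl' with ⟨hi', b1, b2⟩ | ⟨hi', b1, b2⟩ | ⟨j', hi', hj', hh'⟩
    · omega
    · exact ⟨by rw [a1, b1], by rw [a2, b2]⟩
    · omega
  · rcases hl' with ⟨hi', b1, b2⟩ | ⟨hi', b1, b2⟩ | ⟨j', hi', hj', hh'⟩
    · omega
    · omega
    · have : j' = j := by omega
      subst this
      subst hi
      have hx1 := h.x_pos (j' + 1) (by omega)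
      have hy1 := h.y_pos (j' + 1) (by omega) (by omega)
      have hx2 := (h.x_lt_succ (j' + 1) (by omega)).2
      have e1 : x (j' + 1 + 1) = x (j' + 2) := rfl
      rw [e1] at hx2
      have hy2 := (h.y_step j' (by omega)).2
      have hx3 := h.x_nonneg (j' + 2) (by omega)
      have hy3 := h.y_nonneg j' (by omega)
      have hxx := h.hx j' hj
      have hyy := h.hy j' hj
      have hbb := h.hb (j' + 1) (by omega) (by omega)
      rcases hh with ⟨a1, a2⟩ | ⟨a1, a2⟩ | ⟨ab, a1, a2⟩ <;> rcases hh' with ⟨b1, b2⟩ | ⟨b1, b2⟩ | ⟨bb, b1, b2⟩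
      · exact ⟨by rw [a1, b1], by rw [a2, b2]⟩
      · rcases hbb with hb | hb
        · rw [hb] at hxx hyy
          exact ⟨by linarith, by linarith⟩
        · exfalso
          rw [hb] at hxx hyy
          linarith
      · exfalso
        rw [bb] at hxx hyy
        linarith
      · rcases hbb with hb | hb
        · rw [hb] at hxx hyy
          exact ⟨by linarith, by linarith⟩
        · exfalso
          rw [hb] at hxx hyy
          linarith
      · exact ⟨by rw [a1, b1], by rw [a2, b2]⟩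
      · exfalso
        rw [bb] at hxx hyy
        linarith
      · exfalso
        rw [ab] at hxx hyy
        linarith
      · exfalso
        rw [ab] at hxx hyy
        linarith
      · exact ⟨by rw [a1, b1], by rw [a2, b2]⟩

/-- a leaf has absolute coordinates of a lattice point with even third coordinate -/
theorem leaf_inL (h : Ch k b x y) {i : ℕ} {X Y : ℤ} (hl : Leaf k b x y i X Y) :
    0 ≤ X ∧ 0 ≤ Y ∧ ∃ X₀ Y₀ : ℤ, InL x y 0 X₀ Y₀ 0 ∧ |X₀| = X ∧ |Y₀| = Y := by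
  have hk := h.k2
  obtain ⟨f1, f2, f3, f4, f5⟩ := leaf_le h hl
  have h0X : 0 ≤ X := le_trans (h.x_nonneg i f1) f2
  have h0Y : 0 ≤ Y := le_trans (h.y_nonneg i f1) f3
  refine ⟨h0X, h0Y, ?_⟩
  rcases hl with ⟨hi, a1, a2⟩ | ⟨hi, a1, a2⟩ | ⟨j, hi, hj, hh⟩
  · obtain ⟨X₀, Y₀, e1, e2, e3⟩ := inL_mk h 0 (by omega) 2 0 0 (by norm_num)
    refine ⟨X₀, Y₀, e1, ?_, ?_⟩
    · rw [e2, a1, show (2 : ℤ) * x 0 - 0 * x (0 + 1) = 2 * x 0 by ring]
      exact abs_of_nonneg (by linarith)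
    · rw [e3, a2, h.y0]; norm_num
  · obtain ⟨X₀, Y₀, e1, e2, e3⟩ := inL_mk h k le_rfl 0 2 0 (by norm_num)
    refine ⟨X₀, Y₀, e1, ?_, ?_⟩
    · rw [e2, a1, h.xk1]; norm_num
    · rw [e3, a2, show (0 : ℤ) * y k + 2 * y (k + 1) = 2 * y (k + 1) by ring]
      exact abs_of_nonneg (by linarith)
  · rcases hh with ⟨a1, a2⟩ | ⟨a1, a2⟩ | ⟨ab, a1, a2⟩
    · obtain ⟨X₀, Y₀, e1, e2, e3⟩ := inL_mk h j (by omega) 1 1 0 (by norm_num)
      refine ⟨X₀, Y₀, e1, ?_, ?_⟩
      · rw [e2, show (1 : ℤ) * x j - 1 * x (j + 1) = X by rw [a1]; ring]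
        exact abs_of_nonneg h0X
      · rw [e3, show (1 : ℤ) * y j + 1 * y (j + 1) = Y by rw [a2]; ring]
        exact abs_of_nonneg h0Y
    · obtain ⟨X₀, Y₀, e1, e2, e3⟩ := inL_mk h (j + 1) (by omega) (-1) 1 0 (by norm_num)
      refine ⟨X₀, Y₀, e1, ?_, ?_⟩
      · rw [e2, show (-1 : ℤ) * x (j + 1) - 1 * x (j + 1 + 1) = -X by rw [a1]; ring, abs_neg]
        exact abs_of_nonneg h0X
      · rw [e3, show (-1 : ℤ) * y (j + 1) + 1 * y (j + 1 + 1) = Y by rw [a2]; ring]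
        exact abs_of_nonneg h0Y
    · obtain ⟨X₀, Y₀, e1, e2, e3⟩ := inL_mk h (j + 1) (by omega) 2 0 0 (by norm_num)
      refine ⟨X₀, Y₀, e1, ?_, ?_⟩
      · rw [e2, show (2 : ℤ) * x (j + 1) - 0 * x (j + 1 + 1) = X by rw [a1]; ring]
        exact abs_of_nonneg h0X
      · rw [e3, show (2 : ℤ) * y (j + 1) + 0 * y (j + 1 + 1) = Y by rw [a2]; ring]
        exact abs_of_nonneg h0Y

theorem spine_inL (h : Ch k b x y) {i : ℕ} (hi : i ≤ k + 1) :
    ∃ X₀ Y₀ : ℤ, InL x y 0 X₀ Y₀ 1 ∧ |X₀| = x i ∧ |Y₀| = y i := by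
  have hk := h.k2
  have h0X : 0 ≤ x i := h.x_nonneg i hi
  have h0Y : 0 ≤ y i := h.y_nonneg i hi
  rcases Nat.lt_or_ge k i with h1 | h1
  · have h2 : i = k + 1 := by omega
    subst h2
    obtain ⟨X₀, Y₀, e1, e2, e3⟩ := inL_mk h k le_rfl 0 1 1 (by norm_num)
    refine ⟨X₀, Y₀, e1, ?_, ?_⟩
    · rw [e2, h.xk1]; norm_num
    · rw [e3, show (0 : ℤ) * y k + 1 * y (k + 1) = y (k + 1) by ring]
      exact abs_of_nonneg h0Y
  · obtain ⟨X₀, Y₀, e1, e2, e3⟩ := inL_mk h i h1 1 0 1 (by norm_num)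
    refine ⟨X₀, Y₀, e1, ?_, ?_⟩
    · rw [e2, show (1 : ℤ) * x i - 0 * x (i + 1) = x i by ring]
      exact abs_of_nonneg h0X
    · rw [e3, show (1 : ℤ) * y i + 0 * y (i + 1) = y i by ring]
      exact abs_of_nonneg h0Y

end Pool.Agent.MVC
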