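import Pool.Agent.MVC.MinC
import Pool.Agent.MVC.Iso

/-!
Minkowski-Voronoi complexes: the link of the marked points, and the reconstruction of the partial
quotients.
-/

set_option autoImplicit false

open scoped Classical

namespace Pool.Agent.MVC

variable {k m : ℕ} {b x y : ℕ → ℤ}

theorem mem_base {s : Fin (m + 3) → ℤ} :
    s ∈ base m ↔ s = pt 0 0 2 ∨ ∃ j : Fin (m + 3), 3 ≤ j.1 ∧ s = Pi.single j 1 := by
  unfold base
  rw [Finset.mem_insert, Finset.mem_image]
  refine or_congr Iff.rfl ⟨?_, ?_⟩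
  · rintro ⟨j, hj, rfl⟩
    exact ⟨j, (Finset.mem_filter.1 hj).2, rfl⟩
  · rintro ⟨j, hj, rfl⟩
    exact ⟨j, Finset.mem_filter.2 ⟨Finset.mem_univ _, hj⟩, rfl⟩

theorem base_sub (h : Ch k b x y) {s : Fin (m + 3) → ℤ} (hs : s ∈ base m) :
    s ∈ minima (latt m x y) := by
  rw [mem_minima h]
  rcases mem_base.1 hs with h1 | h1
  · exact Or.inl h1
  · exact Or.inr (Or.inr (Or.inr h1))

theorem pt1_not_base (X Y : ℤ) : (pt X Y 1 : Fin (m + 3) → ℤ) ∉ base m := by
  intro h
  rcases mem_base.1 h with h1 | ⟨j, hj, h1⟩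
  · have h2 := congrFun h1 2
    simp at h2
  · have h2 := congrFun h1 2
    rw [(single0 j hj).2.2] at h2
    simp at h2

theorem leaf_pos (h : Ch k b x y) {i : ℕ} {X Y : ℤ} (hl : Leaf k b x y i X Y) :
    ¬ (X ≤ 0 ∧ Y ≤ 0) := by
  intro hc
  have f := leaf_le h hl
  exact leaf_ne h hl ⟨le_trans hc.1 (h.x_nonneg i f.1), le_trans hc.2 (h.y_nonneg i f.1)⟩

theorem leaf_not_base (h : Ch k b x y) {i : ℕ} {X Y : ℤ} (hl : Leaf k b x y i X Y) :
    (pt X Y 0 : Fin (m + 3) → ℤ) ∉ base m := by
  intro h1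
  rcases mem_base.1 h1 with h1 | ⟨j, hj, h1⟩
  · have h2 := congrFun h1 2
    simp at h2
  · have h2 := congrFun h1 j
    rw [pt3 _ _ _ _ hj, Pi.single_eq_same] at h2
    norm_num at h2

theorem spine_min (h : Ch k b x y) {i : ℕ} (hi : i ≤ k + 1) :
    (pt (x i) (y i) 1 : Fin (m + 3) → ℤ) ∈ minima (latt m x y) :=
  (mem_minima h).2 (Or.inr (Or.inl ⟨i, hi, rfl⟩))

theorem leaf_min (h : Ch k b x y) {i : ℕ} {X Y : ℤ} (hl : Leaf k b x y i X Y) :
    (pt X Y 0 : Fin (m + 3) → ℤ) ∈ minima (latt m x y) :=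
  (mem_minima h).2 (Or.inr (Or.inr (Or.inl ⟨i, X, Y, hl, rfl⟩)))

/-- a relative minimum outside of the base -/
theorem not_base (h : Ch k b x y) {s : Fin (m + 3) → ℤ} (hs : s ∈ minima (latt m x y))
    (hb : s ∉ base m) : (∃ i, i ≤ k + 1 ∧ s = pt (x i) (y i) 1) ∨
      ∃ i X Y, Leaf k b x y i X Y ∧ s = pt X Y 0 := by
  rcases (mem_minima h).1 hs with h1 | h1 | h1 | h1
  · exact absurd (mem_base.2 (Or.inl h1)) hb
  · exact Or.inl h1
  · exact Or.inr h1
  · exact absurd (mem_base.2 (Or.inr h1)) hb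

theorem base_card (m : ℕ) : (base m).card = m + 1 := by
  unfold base
  have h1 : Function.Injective fun j : Fin (m + 3) => (Pi.single j (1 : ℤ) : Fin (m + 3) → ℤ) := by
    intro i j hij
    by_contra hne
    have h2 := congrFun hij i
    beta_reduce at h2
    rw [Pi.single_eq_same, Pi.single_eq_of_ne hne] at h2
    norm_num at h2
  rw [Finset.card_insert_of_notMem, Finset.card_image_of_injective _ h1]
  · have h2 : (Finset.univ.filter (fun j : Fin (m + 3) => 3 ≤ j.1)).card =
        (Finset.univ : Finset (Fin m)).card := by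
      symm
      refine Finset.card_bij (fun j _ => (⟨j.1 + 3, by omega⟩ : Fin (m + 3))) ?_ ?_ ?_
      · intro j _
        simp
      · intro i _ j _ hij
        have := congrArg Fin.val hij
        apply Fin.ext
        simpa using this
      · intro j hj
        have h3 : 3 ≤ j.1 := (Finset.mem_filter.1 hj).2
        refine ⟨⟨j.1 - 3, by omega⟩, Finset.mem_univ _, ?_⟩
        apply Fin.ext
        change j.1 - 3 + 3 = j.1
        omega
    rw [h2, Finset.card_univ, Fintype.card_fin]
  · intro h2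
    obtain ⟨j, hj, h3⟩ := Finset.mem_image.1 h2
    have h4 := congrFun h3 2
    rw [(single0 j (Finset.mem_filter.1 hj).2).2.2] at h4
    simp at h4

/-- The link of the base in terms of the first two coordinates. -/
theorem lk_iff (h : Ch k b x y) {u w : Fin (m + 3) → ℤ} (hu : u ∈ minima (latt m x y))
    (hw : w ∈ minima (latt m x y)) : Lk (latt m x y) (base m) u w ↔
      u ≠ w ∧ u ∉ base m ∧ w ∉ base m ∧ ∀ s ∈ minima (latt m x y), s ∉ base m →
        s 0 ≤ max (u 0) (w 0) → s 1 ≤ max (u 1) (w 1) → s = u ∨ s = w := by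
  constructor
  · rintro ⟨h1, h2, h3, h4⟩
    refine ⟨h1, h2, h3, fun s hs hsb h5 h6 => ?_⟩
    have h7 := h4.2.2.2 s hs ?_
    · rw [Finset.mem_union, Finset.mem_insert, Finset.mem_singleton] at h7
      exact h7.resolve_left hsb
    · apply fin3
      · rcases le_max_iff.1 h5 with h7 | h7
        · exact ⟨u, by simp, h7⟩
        · exact ⟨w, by simp, h7⟩
      · rcases le_max_iff.1 h6 with h7 | h7
        · exact ⟨u, by simp, h7⟩
        · exact ⟨w, by simp, h7⟩
      · refine ⟨pt 0 0 2, Finset.mem_union_left _ (mem_base.2 (Or.inl rfl)), ?_⟩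
        rw [pt2]
        exact minima_le2 h hs
      · intro j hj
        refine ⟨Pi.single j 1, Finset.mem_union_left _ (mem_base.2 (Or.inr ⟨j, hj, rfl⟩)), ?_⟩
        rw [Pi.single_eq_same]
        exact minima_le1 h hs hj
  · rintro ⟨h1, h2, h3, h4⟩
    refine ⟨h1, h2, h3, ⟨u, by simp⟩, ?_, ?_, ?_⟩
    · refine (Finset.card_union_le _ _).trans ?_
      rw [base_card]
      have := Finset.card_le_two (a := u) (b := w)
      omega
    · intro s hs
      rw [Finset.mem_union, Finset.mem_insert, Finset.mem_singleton] at hs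
      rcases hs with hs | rfl | rfl
      · exact base_sub h hs
      · exact hu
      · exact hw
    · intro s hs h5
      rw [Finset.mem_union, Finset.mem_insert, Finset.mem_singleton]
      by_cases hsb : s ∈ base m
      · exact Or.inl hsb
      · right
        have hu0 := minima_nonneg hu
        have hw0 := minima_nonneg hw
        have key : ∀ i : Fin (m + 3), (∀ t ∈ base m, t i = 0) → s i ≤ max (u i) (w i) := by
          intro i hi
          obtain ⟨t, ht, h6⟩ := h5 i
          rw [Finset.mem_union, Finset.mem_insert, Finset.mem_singleton] at ht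
          rcases ht with ht | rfl | rfl
          · rw [hi t ht] at h6
            exact h6.trans ((hu0 i).trans (le_max_left _ _))
          · exact h6.trans (le_max_left _ _)
          · exact h6.trans (le_max_right _ _)
        refine h4 s hs hsb (key 0 fun t ht => ?_) (key 1 fun t ht => ?_)
        · rcases mem_base.1 ht with rfl | ⟨j, hj, rfl⟩
          · simp
          · exact (single0 j hj).1
        · rcases mem_base.1 ht with rfl | ⟨j, hj, rfl⟩
          · simp
          · exact (single0 j hj).2.1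

theorem Lk.symm {n : ℕ} {Γ : AddSubgroup (Fin n → ℤ)} {B : Finset (Fin n → ℤ)}
    {u w : Fin n → ℤ} (h : Lk Γ B u w) : Lk Γ B w u := by
  obtain ⟨h1, h2, h3, h4⟩ := h
  refine ⟨h1.symm, h3, h2, ?_⟩
  rwa [Finset.pair_comm]

theorem Lk.mem {n : ℕ} {Γ : AddSubgroup (Fin n → ℤ)} {B : Finset (Fin n → ℤ)}
    {u w : Fin n → ℤ} (h : Lk Γ B u w) : u ∈ minima Γ ∧ w ∈ minima Γ :=
  ⟨h.2.2.2.2.2.1 u (by simp), h.2.2.2.2.2.1 w (by simp)⟩

theorem spine_ne (h : Ch k b x y) {i j : ℕ} (hi : i ≤ k + 1) (hj : j ≤ k + 1) (hij : i ≠ j) :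
    (pt (x i) (y i) 1 : Fin (m + 3) → ℤ) ≠ pt (x j) (y j) 1 := by
  intro hc
  obtain ⟨h1, -, -⟩ := pt_inj hc
  rcases Nat.lt_or_gt_of_ne hij with h2 | h2
  · have := h.x_lt i j h2 hj
    omega
  · have := h.x_lt j i h2 hi
    omega

theorem spine_ne_leaf (X Y X' Y' : ℤ) : (pt X Y 1 : Fin (m + 3) → ℤ) ≠ pt X' Y' 0 := by
  intro hc
  have := (pt_inj hc).2.2
  norm_num at this

theorem lk_PP (h : Ch k b x y) {i : ℕ} (h1 : 1 ≤ i) (h2 : i + 1 ≤ k) :
    Lk (latt m x y) (base m) (pt (x i) (y i) 1) (pt (x (i + 1)) (y (i + 1)) 1) := by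
  rw [lk_iff h (spine_min h (by omega)) (spine_min h (by omega))]
  refine ⟨spine_ne h (by omega) (by omega) (by omega), pt1_not_base _ _, pt1_not_base _ _,
    fun s hs hsb h3 h4 => ?_⟩
  simp only [pt0, pt1] at h3 h4
  have hx := h.x_lt i (i + 1) (by omega) (by omega)
  have hy := h.y_lt i (i + 1) (by omega) (by omega)
  rw [max_eq_left hx.le] at h3
  rw [max_eq_right hy.le] at h4
  rcases not_base h hs hsb with ⟨l, hl, rfl⟩ | ⟨l, X, Y, hl, rfl⟩
  · simp only [pt0, pt1] at h3 h4
    have h5 : i ≤ l := by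
      by_contra hc
      have := h.x_lt l i (by omega) (by omega)
      omega
    have h6 : l ≤ i + 1 := by
      by_contra hc
      have := h.y_lt (i + 1) l (by omega) (by omega)
      omega
    have h7 : l = i ∨ l = i + 1 := by omega
    rcases h7 with rfl | rfl
    · exact Or.inl rfl
    · exact Or.inr rfl
  · exfalso
    simp only [pt0, pt1] at h3 h4
    obtain ⟨f1, f2, f3, f4, f5⟩ := leaf_le h hl
    have h5 : i ≤ l := by
      by_contra hc
      have := h.x_lt l i (by omega) (by omega)
      omega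
    have h6 : l ≤ i + 1 := by
      by_contra hc
      have := h.y_lt (i + 1) l (by omega) (by omega)
      omega
    have h7 : l = i ∨ l = i + 1 := by omega
    rcases hl with ⟨hi, hX, hY⟩ | ⟨hi, hX, hY⟩ | ⟨j, hi, hj, hh⟩
    · omega
    · omega
    · rcases h7 with h8 | h8
      · -- the leaves at `i` are too far in the direction of `x`
        have e1 : i = j + 1 := by omega
        subst e1
        have g1 := h.x_pos (j + 1 + 1) (by omega)
        have g2 := h.x_two j hj
        have e2 : x (j + 1 + 1) = x (j + 2) := rfl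
        rw [e2] at g1
        have g3 := h.x_pos (j + 1) (by omega)
        rcases hh with ⟨a1, -⟩ | ⟨a1, -⟩ | ⟨-, a1, -⟩
        · omega
        · omega
        · omega
      · have e1 : i = j := by omega
        subst e1
        have g1 := h.y_pos i h1 (by omega)
        have g2 := h.y_two i hj
        have g3 := h.y_pos (i + 1) (by omega) (by omega)
        rcases hh with ⟨-, a1⟩ | ⟨-, a1⟩ | ⟨-, -, a1⟩
        · omega
        · omega
        · omega

theorem lk_PL (h : Ch k b x y) {i : ℕ} (h1 : 1 ≤ i) (h2 : i ≤ k) {X Y : ℤ}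
    (hl : Leaf k b x y i X Y) :
    Lk (latt m x y) (base m) (pt (x i) (y i) 1) (pt X Y 0) := by
  rw [lk_iff h (spine_min h (by omega)) (leaf_min h hl)]
  refine ⟨spine_ne_leaf _ _ _ _, pt1_not_base _ _, leaf_not_base h hl, fun s hs hsb h3 h4 => ?_⟩
  simp only [pt0, pt1] at h3 h4
  obtain ⟨f1, f2, f3, f4, f5⟩ := leaf_le h hl
  rw [max_eq_right f2] at h3
  rw [max_eq_right f3] at h4
  rcases not_base h hs hsb with ⟨l, hl', rfl⟩ | ⟨l, X', Y', hl', rfl⟩
  · simp only [pt0, pt1] at h3 h4
    left
    have h5 : i ≤ l := by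
      by_contra hc
      obtain ⟨j, rfl⟩ : ∃ j, i = j + 1 := ⟨i - 1, by omega⟩
      have h6 := f4 j rfl
      have h7 := h.x_le l j (by omega) (by omega)
      omega
    have h6 : l ≤ i := by
      by_contra hc
      have h6 := f5 h2
      have h7 := h.y_le (i + 1) l (by omega) (by omega)
      omega
    have h7 : l = i := by omega
    rw [h7]
  · simp only [pt0, pt1] at h3 h4
    right
    obtain ⟨-, e1, e2⟩ := leaf_anti h hl' hl h3 h4
    rw [e1, e2]

theorem lk_L (h : Ch k b x y) {i : ℕ} {X Y : ℤ} (hl : Leaf k b x y i X Y)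
    {s : Fin (m + 3) → ℤ} (hs : Lk (latt m x y) (base m) (pt X Y 0) s) :
    s = pt (x i) (y i) 1 := by
  obtain ⟨f1, f2, f3, f4, f5⟩ := leaf_le h hl
  obtain ⟨m1, m2⟩ := hs.mem
  rw [lk_iff h m1 m2] at hs
  obtain ⟨h1, h2, h3, h4⟩ := hs
  have h5 := h4 (pt (x i) (y i) 1) (spine_min h f1) (pt1_not_base _ _)
    (by simp only [pt0]; exact f2.trans (le_max_left _ _))
    (by simp only [pt1]; exact f3.trans (le_max_left _ _))
  rcases h5 with h5 | h5
  · exact absurd h5 (spine_ne_leaf _ _ _ _)
  · exact h5.symm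

theorem lk_P (h : Ch k b x y) {i : ℕ} (h1 : 1 ≤ i) (h2 : i ≤ k) {s : Fin (m + 3) → ℤ}
    (hs : Lk (latt m x y) (base m) (pt (x i) (y i) 1) s) :
    (∃ j, 1 ≤ j ∧ i = j + 1 ∧ s = pt (x j) (y j) 1) ∨
      (i + 1 ≤ k ∧ s = pt (x (i + 1)) (y (i + 1)) 1) ∨
        ∃ X Y, Leaf k b x y i X Y ∧ s = pt X Y 0 := by
  obtain ⟨m1, m2⟩ := hs.mem
  rw [lk_iff h m1 m2] at hs
  obtain ⟨h3, -, h4, h5⟩ := hs
  rcases not_base h m2 h4 with ⟨l, hl, rfl⟩ | ⟨l, X, Y, hl, rfl⟩
  · simp only [pt0, pt1] at h5
    have hne : i ≠ l := by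
      rintro rfl
      exact h3 rfl
    rcases Nat.lt_or_gt_of_ne hne with h6 | h6
    · -- `i < l`
      right
      left
      have h7 : l = i + 1 := by
        by_contra hc
        have g1 := h.x_le i (i + 1) (by omega) (by omega)
        have g2 := h.y_le (i + 1) l (by omega) hl
        rcases h5 (pt (x (i + 1)) (y (i + 1)) 1) (spine_min h (by omega)) (pt1_not_base _ _)
          (by simp only [pt0]; exact g1.trans (le_max_left _ _))
          (by simp only [pt1]; exact g2.trans (le_max_right _ _)) with g3 | g3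
        · exact spine_ne h (by omega) (by omega) (by omega) g3
        · exact spine_ne h (by omega) (by omega) (by omega) g3
      subst h7
      refine ⟨?_, rfl⟩
      by_contra hc
      have h7 : i = k := by omega
      subst h7
      obtain ⟨j, rfl⟩ : ∃ j, i = j + 1 := ⟨i - 1, by omega⟩
      have hlf := leaf_d h j (by omega)
      have e1 : x (j + 2) = 0 := h.xk1
      have e2 : x (j + 1) = 1 := h.xk
      have g2 := h.y_nonneg (j + 1) (by omega)
      rcases h5 _ (leaf_min h hlf) (leaf_not_base h hlf)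
        (by simp only [pt0]; rw [e1, add_zero]; exact le_max_left _ _)
        (by simp only [pt1]; exact le_trans (by
              have e3 : y (j + 1 + 1) = y (j + 2) := rfl
              rw [e3]; linarith) (le_max_right _ _)) with g3 | g3
      · exact spine_ne_leaf _ _ _ _ g3.symm
      · exact spine_ne_leaf _ _ _ _ g3.symm
    · -- `l < i`
      left
      have h7 : i = l + 1 := by
        by_contra hc
        obtain ⟨j, rfl⟩ : ∃ j, i = j + 1 := ⟨i - 1, by omega⟩
        have g1 := h.x_le l j (by omega) (by omega)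
        have g2 := h.y_le j (j + 1) (by omega) (by omega)
        rcases h5 (pt (x j) (y j) 1) (spine_min h (by omega)) (pt1_not_base _ _)
          (by simp only [pt0]; exact g1.trans (le_max_right _ _))
          (by simp only [pt1]; exact g2.trans (le_max_left _ _)) with g3 | g3
        · exact spine_ne h (by omega) (by omega) (by omega) g3
        · exact spine_ne h (by omega) (by omega) (by omega) g3
      subst h7
      refine ⟨l, ?_, rfl, rfl⟩
      by_contra hc
      have h7 : l = 0 := by omega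
      subst h7
      have hlf := leaf_s h 0 (by omega)
      have g2 := h.x_nonneg 1 (by omega)
      rcases h5 _ (leaf_min h hlf) (leaf_not_base h hlf)
        (by simp only [pt0]; exact le_trans (by
              have e3 : x (0 + 1) = x 1 := rfl
              rw [e3]; linarith) (le_max_right _ _))
        (by simp only [pt1]; rw [h.y0, zero_add]; exact le_max_left _ _) with g3 | g3
      · exact spine_ne_leaf _ _ _ _ g3.symm
      · exact spine_ne_leaf _ _ _ _ g3.symm
  · right
    right
    simp only [pt0, pt1] at h5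
    obtain ⟨f1, f2, f3, f4, f5⟩ := leaf_le h hl
    rcases h5 (pt (x l) (y l) 1) (spine_min h f1) (pt1_not_base _ _)
      (by simp only [pt0]; exact f2.trans (le_max_right _ _))
      (by simp only [pt1]; exact f3.trans (le_max_right _ _)) with g3 | g3
    · have h6 : l = i := by
        by_contra hc
        exact spine_ne h f1 (by omega) hc g3
      subst h6
      exact ⟨X, Y, hl, rfl⟩
    · exact absurd g3 (spine_ne_leaf _ _ _ _)

end Pool.Agent.MVC
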