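import Pool.Agent.MVC.Leaf

/-!
Minkowski-Voronoi complexes: the relative minima of the lattice of a pair of chains.
-/

set_option autoImplicit false

open scoped Classical

namespace Pool.Agent.MVC

variable {k m : ℕ} {b x y : ℕ → ℤ}

theorem val1 : (1 : Fin (m + 3)).val = 1 := by
  rw [Fin.val_one']
  exact Nat.mod_eq_of_lt (by omega)

theorem val2 : (2 : Fin (m + 3)).val = 2 := by
  have : (2 : Fin (m + 3)) = Fin.ofNat (m + 3) 2 := rfl
  rw [this, Fin.val_ofNat]
  exact Nat.mod_eq_of_lt (by omega)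

theorem val0 : (0 : Fin (m + 3)).val = 0 := rfl

theorem fin3 (P : Fin (m + 3) → Prop) (h0 : P 0) (h1 : P 1) (h2 : P 2) (h3 : ∀ j : Fin (m + 3), 3 ≤ j.1 → P j) :
    ∀ j, P j := by
  intro j
  rcases Nat.lt_or_ge j.1 3 with h | h
  · have h4 : j.1 = 0 ∨ j.1 = 1 ∨ j.1 = 2 := by omega
    rcases h4 with h4 | h4 | h4
    · have : j = 0 := Fin.ext h4
      rw [this]; exact h0
    · have : j = 1 := Fin.ext (by rw [h4, val1])
      rw [this]; exact h1
    · have : j = 2 := Fin.ext (by rw [h4, val2])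
      rw [this]; exact h2
  · exact h3 j h

@[simp] theorem pt0 (X Y Z : ℤ) : (pt X Y Z : Fin (m + 3) → ℤ) 0 = X := by simp [pt]

@[simp] theorem pt1 (X Y Z : ℤ) : (pt X Y Z : Fin (m + 3) → ℤ) 1 = Y := by
  unfold pt; rw [val1]; simp

@[simp] theorem pt2 (X Y Z : ℤ) : (pt X Y Z : Fin (m + 3) → ℤ) 2 = Z := by
  unfold pt; rw [val2]; simp

theorem pt3 (X Y Z : ℤ) (j : Fin (m + 3)) (hj : 3 ≤ j.1) : (pt X Y Z : Fin (m + 3) → ℤ) j = 0 := by
  unfold pt
  rw [if_neg (by omega), if_neg (by omega), if_neg (by omega)]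

theorem pt_inj {X Y Z X' Y' Z' : ℤ} (h : (pt X Y Z : Fin (m + 3) → ℤ) = pt X' Y' Z') : X = X' ∧ Y = Y' ∧ Z = Z' := by
  refine ⟨?_, ?_, ?_⟩
  · have := congrFun h 0; simpa using this
  · have := congrFun h 1; simpa using this
  · have := congrFun h 2; simpa using this

theorem single0 (j : Fin (m + 3)) (hj : 3 ≤ j.1) :
    (Pi.single j (1 : ℤ) : Fin (m + 3) → ℤ) 0 = 0 ∧ (Pi.single j (1 : ℤ) : Fin (m + 3) → ℤ) 1 = 0 ∧
    (Pi.single j (1 : ℤ) : Fin (m + 3) → ℤ) 2 = 0 := by
  refine ⟨Pi.single_eq_of_ne ?_ _, Pi.single_eq_of_ne ?_ _, Pi.single_eq_of_ne ?_ _⟩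
  · intro hc; rw [← hc] at hj; simp at hj
  · intro hc; rw [← hc, val1] at hj; omega
  · intro hc; rw [← hc, val2] at hj; omega

/-- the explicit list of the minima -/
def Expl (m k : ℕ) (b x y : ℕ → ℤ) (s : Fin (m + 3) → ℤ) : Prop :=
  s = pt 0 0 2 ∨ (∃ i, i ≤ k + 1 ∧ s = pt (x i) (y i) 1) ∨ (∃ i X Y, Leaf k b x y i X Y ∧ s = pt X Y 0) ∨
    ∃ j : Fin (m + 3), 3 ≤ j.1 ∧ s = Pi.single j 1

theorem mem_latt (v : Fin (m + 3) → ℤ) : v ∈ latt m x y ↔ InL x y 0 (v 0) (v 1) (v 2) := Iff.rfl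

theorem pt_mem_abs {X₀ Y₀ Z : ℤ} (hL : InL x y 0 X₀ Y₀ Z) (hZ : 0 ≤ Z) (hne : X₀ ≠ 0 ∨ Y₀ ≠ 0 ∨ Z ≠ 0) :
    (pt |X₀| |Y₀| Z : Fin (m + 3) → ℤ) ∈ absSet (latt m x y) := by
  refine ⟨pt X₀ Y₀ Z, ?_, ?_, ?_⟩
  · rw [mem_latt]; simpa using hL
  · intro hc
    have h0 := congrFun hc 0
    have h1 := congrFun hc 1
    have h2 := congrFun hc 2
    simp at h0 h1 h2
    tauto
  · funext j
    revert j
    apply fin3
    · simp
    · simp
    · simp [abs_of_nonneg hZ]
    · intro j hj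
      rw [pt3 _ _ _ _ hj, pt3 _ _ _ _ hj]; simp

theorem expl_mem (h : Ch k b x y) {s : Fin (m + 3) → ℤ} (hs : Expl m k b x y s) : s ∈ absSet (latt m x y) := by
  rcases hs with rfl | ⟨i, hi, rfl⟩ | ⟨i, X, Y, hl, rfl⟩ | ⟨j, hj, rfl⟩
  · have := pt_mem_abs (m := m) (x := x) (y := y) (X₀ := 0) (Y₀ := 0) (Z := 2) ⟨0, 0, by simp, by simp, by norm_num⟩
      (by norm_num) (Or.inr (Or.inr (by norm_num)))
    simpa using this
  · obtain ⟨X₀, Y₀, e1, e2, e3⟩ := spine_inL h hi
    have := pt_mem_abs (m := m) e1 (by norm_num) (Or.inr (Or.inr (by norm_num)))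
    rw [e2, e3] at this
    exact this
  · obtain ⟨h0X, h0Y, X₀, Y₀, e1, e2, e3⟩ := leaf_inL h hl
    have hne : X₀ ≠ 0 ∨ Y₀ ≠ 0 ∨ (0 : ℤ) ≠ 0 := by
      by_contra hcon
      push Not at hcon
      obtain ⟨g1, g2, _⟩ := hcon
      rw [g1] at e2
      rw [g2] at e3
      simp at e2 e3
      have f := leaf_le h hl
      have := leaf_ne h hl
      exact this ⟨by rw [← e2]; exact h.x_nonneg i f.1, by rw [← e3]; exact h.y_nonneg i f.1⟩
    have := pt_mem_abs (m := m) e1 le_rfl hne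
    rw [e2, e3] at this
    exact this
  · refine ⟨Pi.single j 1, ?_, ?_, ?_⟩
    · rw [mem_latt, (single0 j hj).1, (single0 j hj).2.1, (single0 j hj).2.2]
      exact ⟨0, 0, by simp, by simp, by simp⟩
    · intro hc
      have := congrFun hc j
      simp at this
    · funext i
      by_cases hij : i = j
      · subst hij; simp
      · rw [Pi.single_eq_of_ne hij]; simp

theorem abs_dom (h : Ch k b x y) {t : Fin (m + 3) → ℤ} (ht : t ∈ absSet (latt m x y)) :
    ∃ s, Expl m k b x y s ∧ ∀ i, s i ≤ t i := by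
  obtain ⟨v, hv, hv0, rfl⟩ := ht
  rw [mem_latt] at hv
  -- a unit vector below
  by_cases h3 : ∃ j : Fin (m + 3), 3 ≤ j.1 ∧ v j ≠ 0
  · obtain ⟨j, hj, hvj⟩ := h3
    refine ⟨Pi.single j 1, Or.inr (Or.inr (Or.inr ⟨j, hj, rfl⟩)), fun i => ?_⟩
    by_cases hij : i = j
    · subst hij
      rw [Pi.single_eq_same]
      exact Int.one_le_abs hvj
    · rw [Pi.single_eq_of_ne hij]; exact abs_nonneg _
  push Not at h3
  rcases Nat.lt_or_ge (v 2).natAbs 2 with hz | hz
  · rcases Nat.lt_or_ge (v 2).natAbs 1 with hz1 | hz1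
    · have hz0 : v 2 = 0 := by omega
      have hne : v 0 ≠ 0 ∨ v 1 ≠ 0 := by
        by_contra hcon
        push Not at hcon
        apply hv0
        funext j
        revert j
        exact fin3 _ hcon.1 hcon.2 hz0 h3
      obtain ⟨i, X, Y, hl, hX, hY⟩ := dom0 h hv (by rw [hz0]; exact dvd_zero _) hne
      refine ⟨pt X Y 0, Or.inr (Or.inr (Or.inl ⟨i, X, Y, hl, rfl⟩)), ?_⟩
      apply fin3
      · simpa using hX
      · simpa using hY
      · simp
      · intro j hj
        rw [pt3 _ _ _ _ hj]; exact abs_nonneg _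
    · have hzabs : |v 2| = 1 := by
        rw [Int.abs_eq_natAbs]; omega
      have hne : v 0 ≠ 0 ∨ v 1 ≠ 0 := by
        by_contra hcon
        push Not at hcon
        obtain ⟨p, q, e1, e2, e3⟩ := hv
        rw [hcon.2, h.y0, h.y1] at e2
        rw [hcon.1] at e1
        have hq : q = 0 := by linarith
        rw [hq] at e1 e3
        have hx0 := h.x_pos 0 (by omega)
        have hp : p = 0 := by
          have : p * x 0 = 0 := by simpa using e1.symm
          rcases mul_eq_zero.1 this with h4 | h4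
          · exact h4
          · omega
        rw [hp] at e3
        omega
      obtain ⟨i, hi, hX, hY⟩ := dom1 h hv hne
      refine ⟨pt (x i) (y i) 1, Or.inr (Or.inl ⟨i, hi, rfl⟩), ?_⟩
      apply fin3
      · simpa using hX
      · simpa using hY
      · simp [hzabs]
      · intro j hj
        rw [pt3 _ _ _ _ hj]; exact abs_nonneg _
  · refine ⟨pt 0 0 2, Or.inl rfl, ?_⟩
    apply fin3
    · simp
    · simp
    · simp only [pt2]
      rw [Int.abs_eq_natAbs]
      exact_mod_cast hz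
    · intro j hj
      rw [pt3 _ _ _ _ hj]; exact abs_nonneg _

theorem expl_anti (h : Ch k b x y) {s s' : Fin (m + 3) → ℤ} (hs : Expl m k b x y s) (hs' : Expl m k b x y s')
    (hle : ∀ i, s i ≤ s' i) : s = s' := by
  have hk := h.k2
  have leafpos : ∀ i X Y, Leaf k b x y i X Y → ¬ (X ≤ 0 ∧ Y ≤ 0) := by
    intro i X Y hl hc
    have f := leaf_le h hl
    exact leaf_ne h hl ⟨le_trans hc.1 (h.x_nonneg i f.1), le_trans hc.2 (h.y_nonneg i f.1)⟩
  have spinepos : ∀ i, i ≤ k + 1 → ¬ (x i ≤ 0 ∧ y i ≤ 0) := by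
    intro i hi hc
    rcases Nat.lt_or_ge k i with h1 | h1
    · have := h.y_pos i (by omega) hi
      omega
    · have := h.x_pos i h1
      omega
  rcases hs with rfl | ⟨i, hi, rfl⟩ | ⟨i, X, Y, hl, rfl⟩ | ⟨j, hj, rfl⟩
  · rcases hs' with rfl | ⟨i', hi', rfl⟩ | ⟨i', X', Y', hl', rfl⟩ | ⟨j', hj', rfl⟩
    · rfl
    · exfalso; have := hle 2; simp at this
    · exfalso; have := hle 2; simp at this
    · exfalso; have := hle 2; rw [(single0 j' hj').2.2] at this; simp at this
  · rcases hs' with rfl | ⟨i', hi', rfl⟩ | ⟨i', X', Y', hl', rfl⟩ | ⟨j', hj', rfl⟩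
    · exfalso
      have h0 := hle 0
      have h1 := hle 1
      simp at h0 h1
      exact spinepos i hi ⟨h0, h1⟩
    · have h0 := hle 0
      have h1 := hle 1
      simp only [pt0, pt1] at h0 h1
      have : i = i' := by
        rcases lt_trichotomy i i' with hc | hc | hc
        · have := h.x_lt i i' hc hi'
          omega
        · exact hc
        · have := h.y_lt i' i hc hi
          omega
      rw [this]
    · exfalso; have := hle 2; simp at this
    · exfalso; have := hle 2; rw [(single0 j' hj').2.2] at this; simp at this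
  · rcases hs' with rfl | ⟨i', hi', rfl⟩ | ⟨i', X', Y', hl', rfl⟩ | ⟨j', hj', rfl⟩
    · exfalso
      have h0 := hle 0
      have h1 := hle 1
      simp at h0 h1
      exact leafpos i X Y hl ⟨h0, h1⟩
    · exfalso
      have h0 := hle 0
      have h1 := hle 1
      simp only [pt0, pt1] at h0 h1
      obtain ⟨f1, f2, f3, f4, f5⟩ := leaf_le h hl
      have : i = i' := by
        rcases lt_trichotomy i i' with hc | hc | hc
        · have := h.x_lt i i' hc hi'
          omega
        · exact hc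
        · have := h.y_lt i' i hc f1
          omega
      subst this
      exact leaf_ne h hl ⟨h0, h1⟩
    · have h0 := hle 0
      have h1 := hle 1
      simp only [pt0, pt1] at h0 h1
      obtain ⟨_, e1, e2⟩ := leaf_anti h hl hl' h0 h1
      rw [e1, e2]
    · exfalso
      have h0 := hle 0
      have h1 := hle 1
      rw [(single0 j' hj').1] at h0
      rw [(single0 j' hj').2.1] at h1
      simp at h0 h1
      exact leafpos i X Y hl ⟨h0, h1⟩
  · have hjj := hle j
    rw [Pi.single_eq_same] at hjj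
    rcases hs' with rfl | ⟨i', hi', rfl⟩ | ⟨i', X', Y', hl', rfl⟩ | ⟨j', hj', rfl⟩
    · exfalso; rw [pt3 _ _ _ _ hj] at hjj; omega
    · exfalso; rw [pt3 _ _ _ _ hj] at hjj; omega
    · exfalso; rw [pt3 _ _ _ _ hj] at hjj; omega
    · by_cases hc : j = j'
      · rw [hc]
      · exfalso
        rw [Pi.single_eq_of_ne hc] at hjj
        omega

/-- the relative minima -/
theorem mem_minima (h : Ch k b x y) {s : Fin (m + 3) → ℤ} : s ∈ minima (latt m x y) ↔ Expl m k b x y s := by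
  constructor
  · rintro ⟨h1, h2⟩
    obtain ⟨s', hs', hle⟩ := abs_dom h h1
    have := h2 s' (expl_mem h hs') hle
    rw [← this]; exact hs'
  · intro hs
    refine ⟨expl_mem h hs, fun t ht hle => ?_⟩
    obtain ⟨s', hs', hle'⟩ := abs_dom h ht
    have : s' = s := expl_anti h hs' hs (fun i => le_trans (hle' i) (hle i))
    subst this
    funext i
    exact le_antisymm (hle i) (hle' i)

end Pool.Agent.MVC
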