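import Pool.Agent.MVC.Min

/-!
Minkowski-Voronoi complexes: the number of the relative minima and of the vertices.
-/

set_option autoImplicit false

open scoped Classical

namespace Pool.Agent.MVC

variable {k m : ℕ} {b x y : ℕ → ℤ}

theorem latt_fin (h : Ch k b x y) : (latt m x y).FiniteIndex := by
  have hk := h.k2
  have hx0 := h.x_pos 0 (by omega)
  obtain ⟨N, hN⟩ : ∃ N : ℕ, x 0 = N := ⟨(x 0).toNat, by omega⟩
  have hN0 : N ≠ 0 := by omega
  have : NeZero (2 * N) := ⟨by omega⟩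
  set f : (Fin (m + 3) → ℤ) →+ (Fin (m + 3) → ZMod (2 * N)) :=
    { toFun := fun v i => (v i : ZMod (2 * N))
      map_zero' := by funext i; simp
      map_add' := by intro v w; funext i; simp } with hf
  have h1 : f.ker ≤ latt m x y := by
    intro v hv
    have h2 : ∀ i, ∃ c : ℤ, v i = 2 * N * c := by
      intro i
      have h3 : (v i : ZMod (2 * N)) = 0 := congrFun hv i
      rw [ZMod.intCast_zmod_eq_zero_iff_dvd] at h3
      obtain ⟨c, hc⟩ := h3
      exact ⟨c, by rw [hc]; push_cast; ring⟩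
    obtain ⟨c0, h0⟩ := h2 0
    obtain ⟨c1, h1'⟩ := h2 1
    obtain ⟨c2, h2'⟩ := h2 2
    rw [mem_latt]
    refine ⟨2 * c0 + 2 * c1 * x 1, 2 * N * c1, ?_, ?_, ?_⟩
    · rw [h0, hN]
      ring
    · rw [h1', h.y0, h.y1]
      ring
    · rw [h2']
      exact ⟨N * c2 - c0 - c1 * x 1 - N * c1, by ring⟩
  exact AddSubgroup.finiteIndex_of_le h1

theorem minima_sub (h : Ch k b x y) : minima (latt m x y) ⊆
    (({pt 0 0 2, pt (2 * x 0) 0 0, pt 0 (2 * y (k + 1)) 0} ∪
      (Finset.range (k + 2)).image (fun i => pt (x i) (y i) 1) ∪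
      (Finset.range k).image (fun j => pt (x j - x (j + 1)) (y j + y (j + 1)) 0) ∪
      (Finset.range k).image (fun j => pt (x (j + 1) + x (j + 2)) (y (j + 2) - y (j + 1)) 0) ∪
      (Finset.range k).image (fun j => pt (2 * x (j + 1)) (2 * y (j + 1)) 0) ∪
      (Finset.univ : Finset (Fin m)).image (fun j => Pi.single (⟨j.1 + 3, by omega⟩ : Fin (m + 3))
        (1 : ℤ)) : Finset (Fin (m + 3) → ℤ)) : Set (Fin (m + 3) → ℤ)) := by
  intro s hs
  rw [mem_minima h] at hs
  simp only [Finset.coe_union, Finset.coe_insert, Finset.coe_singleton, Finset.coe_image,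
    Set.mem_union, Set.mem_insert_iff, Set.mem_singleton_iff, Set.mem_image, Finset.mem_coe,
    Finset.mem_range, Finset.mem_univ, true_and]
  rcases hs with rfl | ⟨i, hi, rfl⟩ | ⟨i, X, Y, hl, rfl⟩ | ⟨j, hj, rfl⟩
  · exact Or.inl (Or.inl (Or.inl (Or.inl (Or.inl (Or.inl rfl)))))
  · exact Or.inl (Or.inl (Or.inl (Or.inl (Or.inr ⟨i, by omega, rfl⟩))))
  · rcases hl with ⟨hi, hX, hY⟩ | ⟨hi, hX, hY⟩ | ⟨j, hi, hj, hh⟩
    · rw [hX, hY]
      exact Or.inl (Or.inl (Or.inl (Or.inl (Or.inl (Or.inr (Or.inl rfl))))))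
    · rw [hX, hY]
      exact Or.inl (Or.inl (Or.inl (Or.inl (Or.inl (Or.inr (Or.inr rfl))))))
    · rcases hh with ⟨h1, h2⟩ | ⟨h1, h2⟩ | ⟨-, h1, h2⟩
      · rw [h1, h2]
        exact Or.inl (Or.inl (Or.inl (Or.inr ⟨j, hj, rfl⟩)))
      · rw [h1, h2]
        exact Or.inl (Or.inl (Or.inr ⟨j, hj, rfl⟩))
      · rw [h1, h2]
        exact Or.inl (Or.inr ⟨j, hj, rfl⟩)
  · refine Or.inr ⟨⟨j.1 - 3, by omega⟩, ?_⟩
    congr 1
    apply Fin.ext
    change j.1 - 3 + 3 = j.1
    omega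

theorem minima_card (h : Ch k b x y) :
    (minima (latt m x y)).Finite ∧ (minima (latt m x y)).ncard ≤ 5 * k + 10 + m := by
  have h1 := minima_sub (m := m) h
  refine ⟨(Finset.finite_toSet _).subset h1, ?_⟩
  refine (Set.ncard_le_ncard h1 (Finset.finite_toSet _)).trans ?_
  rw [Set.ncard_coe_finset]
  have e1 : ({pt 0 0 2, pt (2 * x 0) 0 0, pt 0 (2 * y (k + 1)) 0} :
      Finset (Fin (m + 3) → ℤ)).card ≤ 3 := Finset.card_le_three
  have e2 : ((Finset.range (k + 2)).image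
      (fun i => (pt (x i) (y i) 1 : Fin (m + 3) → ℤ))).card ≤ k + 2 :=
    Finset.card_image_le.trans (by rw [Finset.card_range])
  have e3 : ((Finset.range k).image
      (fun j => (pt (x j - x (j + 1)) (y j + y (j + 1)) 0 : Fin (m + 3) → ℤ))).card ≤ k :=
    Finset.card_image_le.trans (by rw [Finset.card_range])
  have e4 : ((Finset.range k).image
      (fun j => (pt (x (j + 1) + x (j + 2)) (y (j + 2) - y (j + 1)) 0 : Fin (m + 3) → ℤ))).card ≤
        k :=
    Finset.card_image_le.trans (by rw [Finset.card_range])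
  have e5 : ((Finset.range k).image
      (fun j => (pt (2 * x (j + 1)) (2 * y (j + 1)) 0 : Fin (m + 3) → ℤ))).card ≤ k :=
    Finset.card_image_le.trans (by rw [Finset.card_range])
  have e6 : ((Finset.univ : Finset (Fin m)).image
      (fun j => (Pi.single (⟨j.1 + 3, by omega⟩ : Fin (m + 3)) (1 : ℤ) :
        Fin (m + 3) → ℤ))).card ≤ m :=
    Finset.card_image_le.trans (by rw [Finset.card_univ, Fintype.card_fin])
  refine (Finset.card_union_le _ _).trans ?_
  refine (Nat.add_le_add_right (Finset.card_union_le _ _) _).trans ?_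
  refine (Nat.add_le_add_right (Nat.add_le_add_right (Finset.card_union_le _ _) _) _).trans ?_
  refine (Nat.add_le_add_right (Nat.add_le_add_right (Nat.add_le_add_right
    (Finset.card_union_le _ _) _) _) _).trans ?_
  refine (Nat.add_le_add_right (Nat.add_le_add_right (Nat.add_le_add_right
    (Nat.add_le_add_right (Finset.card_union_le _ _) _) _) _) _).trans ?_
  omega

theorem minima_nonneg {s : Fin (m + 3) → ℤ} (hs : s ∈ minima (latt m x y))
    (i : Fin (m + 3)) : 0 ≤ s i := by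
  obtain ⟨⟨v, -, -, rfl⟩, -⟩ := hs
  exact abs_nonneg _

theorem minima_le2 (h : Ch k b x y) {s : Fin (m + 3) → ℤ} (hs : s ∈ minima (latt m x y)) :
    s 2 ≤ 2 := by
  rw [mem_minima h] at hs
  rcases hs with rfl | ⟨i, hi, rfl⟩ | ⟨i, X, Y, hl, rfl⟩ | ⟨j, hj, rfl⟩
  · simp
  · simp
  · simp
  · rw [(single0 j hj).2.2]
    norm_num

theorem minima_le1 (h : Ch k b x y) {s : Fin (m + 3) → ℤ} (hs : s ∈ minima (latt m x y))
    {i : Fin (m + 3)} (hi : 3 ≤ i.1) : s i ≤ 1 := by
  rw [mem_minima h] at hs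
  rcases hs with rfl | ⟨i', hi', rfl⟩ | ⟨i', X, Y, hl, rfl⟩ | ⟨j, hj, rfl⟩
  · rw [pt3 _ _ _ _ hi]
    norm_num
  · rw [pt3 _ _ _ _ hi]
    norm_num
  · rw [pt3 _ _ _ _ hi]
    norm_num
  · by_cases hij : i = j
    · rw [hij, Pi.single_eq_same]
    · rw [Pi.single_eq_of_ne hij]
      norm_num

/-- the maximum of a coordinate -/
noncomputable def mx (T : Finset (Fin (m + 3) → ℤ)) (i : Fin (m + 3)) : ℕ :=
  T.sup fun t => (t i).toNat

theorem le_mx_iff {T : Finset (Fin (m + 3) → ℤ)} (hT : T.Nonempty)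
    (h0 : ∀ t ∈ T, ∀ i, 0 ≤ t i) {z : ℤ} {i : Fin (m + 3)} :
    (∃ t ∈ T, z ≤ t i) ↔ z.toNat ≤ mx T i := by
  constructor
  · rintro ⟨t, ht, h1⟩
    exact (Int.toNat_le_toNat h1).trans (Finset.le_sup (f := fun t => (t i).toNat) ht)
  · intro h1
    obtain ⟨t, ht, h2⟩ := Finset.exists_mem_eq_sup T hT (fun t => (t i).toNat)
    refine ⟨t, ht, ?_⟩
    have h3 : z.toNat ≤ (t i).toNat := by
      rw [← h2]
      exact h1
    have h4 := h0 t ht i
    omega

theorem face_card (h : Ch k b x y) :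
    {T : Finset (Fin (m + 3) → ℤ) | IsFace (latt m x y) T ∧ T.card = m + 3}.Finite ∧
      {T : Finset (Fin (m + 3) → ℤ) | IsFace (latt m x y) T ∧ T.card = m + 3}.ncard ≤
        3 * 2 ^ m * (5 * k + 10 + m) := by
  obtain ⟨hfin, hcard⟩ := minima_card (m := m) h
  set A : Finset (Fin (m + 3) → ℤ) := hfin.toFinset with hA
  have hAc : A.card ≤ 5 * k + 10 + m := by
    rw [hA, ← Set.ncard_eq_toFinset_card _ hfin]
    exact hcard
  have h0 : ∀ T, IsFace (latt m x y) T → ∀ t ∈ T, ∀ i, 0 ≤ t i := fun T hT t ht i =>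
    minima_nonneg (hT.2.2.1 t ht) i
  have hF : {T : Finset (Fin (m + 3) → ℤ) | IsFace (latt m x y) T ∧ T.card = m + 3}.Finite := by
    refine (Finset.finite_toSet A.powerset).subset fun T hT => ?_
    rw [Finset.mem_coe, Finset.mem_powerset]
    intro t ht
    rw [hA, Set.Finite.mem_toFinset]
    exact hT.1.2.2.1 t ht
  refine ⟨hF, ?_⟩
  set f : Finset (Fin (m + 3) → ℤ) → ℕ × ℕ × (Fin m → ℕ) := fun T =>
    (mx T 0, mx T 2, fun j => mx T ⟨j.1 + 3, by omega⟩) with hf
  have h1 : Set.InjOn f {T : Finset (Fin (m + 3) → ℤ) |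
      IsFace (latt m x y) T ∧ T.card = m + 3} := by
    have key : ∀ T U : Finset (Fin (m + 3) → ℤ), IsFace (latt m x y) T ∧ T.card = m + 3 →
        IsFace (latt m x y) U ∧ U.card = m + 3 → f T = f U → mx T 1 ≤ mx U 1 → T = U := by
      intro T U hT hU hfe h1
      have e0 : mx T 0 = mx U 0 := congrArg Prod.fst hfe
      have e2 : mx T 2 = mx U 2 := congrArg (fun z => z.2.1) hfe
      have e3 : (fun j : Fin m => mx T ⟨j.1 + 3, by omega⟩) =
          fun j : Fin m => mx U ⟨j.1 + 3, by omega⟩ := congrArg (fun z => z.2.2) hfe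
      have hle : ∀ i, mx T i ≤ mx U i := by
        apply fin3
        · exact e0.le
        · exact h1
        · exact e2.le
        · intro j hj
          have e4 := congrFun e3 ⟨j.1 - 3, by omega⟩
          have e5 : (⟨j.1 - 3 + 3, by omega⟩ : Fin (m + 3)) = j := by
            apply Fin.ext
            change j.1 - 3 + 3 = j.1
            omega
          beta_reduce at e4
          rw [e5] at e4
          exact e4.le
      apply Finset.eq_of_subset_of_card_le
      · intro s hs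
        refine hU.1.2.2.2 s (hT.1.2.2.1 s hs) fun i => ?_
        rw [le_mx_iff hU.1.1 (h0 U hU.1)]
        have h2 : (s i).toNat ≤ mx T i := Finset.le_sup (f := fun t => (t i).toNat) hs
        exact h2.trans (hle i)
      · rw [hT.2, hU.2]
    intro T hT U hU hfe
    rcases le_total (mx T 1) (mx U 1) with h2 | h2
    · exact key T U hT hU hfe h2
    · exact (key U T hU hT hfe.symm h2).symm
  set R : Finset (ℕ × ℕ × (Fin m → ℕ)) :=
    (A.image fun t => (t 0).toNat) ×ˢ (Finset.range 3 ×ˢ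
      Fintype.piFinset fun _ : Fin m => Finset.range 2) with hR
  have h2 : f '' {T : Finset (Fin (m + 3) → ℤ) | IsFace (latt m x y) T ∧ T.card = m + 3} ⊆
      (R : Set (ℕ × ℕ × (Fin m → ℕ))) := by
    rintro _ ⟨T, hT, rfl⟩
    rw [Finset.mem_coe, hR, Finset.mem_product, Finset.mem_product, Fintype.mem_piFinset]
    refine ⟨?_, ?_, fun j => ?_⟩
    · obtain ⟨t, ht, h2⟩ := Finset.exists_mem_eq_sup T hT.1.1 (fun t => (t 0).toNat)
      rw [Finset.mem_image]
      refine ⟨t, ?_, h2.symm⟩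
      rw [hA, Set.Finite.mem_toFinset]
      exact hT.1.2.2.1 t ht
    · rw [Finset.mem_range]
      refine lt_of_le_of_lt (b := 2) (Finset.sup_le fun t ht => ?_) (by norm_num)
      have := minima_le2 h (hT.1.2.2.1 t ht)
      omega
    · rw [Finset.mem_range]
      refine lt_of_le_of_lt (b := 1) (Finset.sup_le fun t ht => ?_) (by norm_num)
      have := minima_le1 h (hT.1.2.2.1 t ht) (i := ⟨j.1 + 3, by omega⟩) (by simp)
      omega
  rw [← h1.ncard_image]
  refine (Set.ncard_le_ncard h2 (Finset.finite_toSet _)).trans ?_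
  rw [Set.ncard_coe_finset, hR, Finset.card_product, Finset.card_product, Fintype.card_piFinset,
    Finset.prod_const, Finset.card_univ, Fintype.card_fin, Finset.card_range, Finset.card_range]
  have h3 : (A.image fun t => (t 0).toNat).card ≤ 5 * k + 10 + m :=
    Finset.card_image_le.trans hAc
  calc (A.image fun t => (t 0).toNat).card * (3 * 2 ^ m)
      ≤ (5 * k + 10 + m) * (3 * 2 ^ m) := Nat.mul_le_mul_right _ h3
    _ = 3 * 2 ^ m * (5 * k + 10 + m) := by ring

/-- the chains of given partial quotients -/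
theorem exists_ch (hk : 2 ≤ k) (b : ℕ → ℤ) (hb : ∀ i, 1 ≤ i → i ≤ k → b i = 2 ∨ b i = 4) :
    ∃ x y, Ch k b x y := by
  have key : ∀ a : ℕ → ℤ, ∃ w : ℕ → ℤ, w 0 = 0 ∧ w 1 = 1 ∧
      ∀ j, w (j + 2) = a j * w (j + 1) + w j := by
    intro a
    set u : ℕ → ℤ × ℤ := fun j => Nat.rec (0, 1) (fun j p => (p.2, a j * p.2 + p.1)) j with hu
    have h1 : ∀ j, (u j).2 = (u (j + 1)).1 := fun j => rfl
    refine ⟨fun j => (u j).1, rfl, rfl, fun j => ?_⟩
    change (u (j + 1)).2 = a j * (u (j + 1)).1 + (u j).1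
    rw [← h1]
  obtain ⟨y, y0, y1, hy⟩ := key fun i => b (i + 1)
  obtain ⟨w, w0, w1, hw⟩ := key fun j => b (k - j)
  refine ⟨fun i => w (k + 1 - i), y, ⟨hk, hb, y0, y1, fun i _ => hy i, ?_, ?_, ?_⟩⟩
  · rw [Nat.sub_self, w0]
  · rw [Nat.add_sub_cancel_left, w1]
  · intro i hi
    have h1 := hw (k - 1 - i)
    have e1 : k - 1 - i + 2 = k + 1 - i := by omega
    have e2 : k - 1 - i + 1 = k + 1 - (i + 1) := by omega
    have e3 : k - 1 - i = k + 1 - (i + 2) := by omega
    have e4 : k - (k - 1 - i) = i + 1 := by omega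
    beta_reduce at h1
    rw [e4, e1, e2] at h1
    rw [h1, e3]

end Pool.Agent.MVC
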