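import Pool.Agent.MVC.Link

/-!
Minkowski-Voronoi complexes: the reconstruction of the partial quotients.
-/

set_option autoImplicit false

open scoped Classical

namespace Pool.Agent.MVC

variable {k m : ℕ} {b x y b' x' y' : ℕ → ℤ}

/-- An isomorphism which fixes the base maps the link of the base to the link of the base. -/
theorem lk_map {φ : (Fin (m + 3) → ℤ) → (Fin (m + 3) → ℤ)} (h : Ch k b x y)
    (hφ : HIso (latt m x y) (latt m x' y') φ) (hB : ∀ s ∈ base m, φ s = s)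
    {u w : Fin (m + 3) → ℤ} (hl : Lk (latt m x y) (base m) u w) :
    Lk (latt m x' y') (base m) (φ u) (φ w) := by
  obtain ⟨m1, m2⟩ := hl.mem
  obtain ⟨h1, h2, h3, h4⟩ := hl
  have hnb : ∀ s ∈ minima (latt m x y), s ∉ base m → φ s ∉ base m := by
    intro s hs hsb hc
    have h5 := hφ.bij.injOn (base_sub h hc) hs (hB _ hc)
    rw [h5] at hc
    exact hsb hc
  refine ⟨fun hc => h1 (hφ.bij.injOn m1 m2 hc), hnb u m1 h2, hnb w m2 h3, ?_⟩
  have h5 := (hφ.face _ h4.2.2.1).1 h4
  have h6 : (base m ∪ {u, w}).image φ = base m ∪ {φ u, φ w} := by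
    rw [Finset.image_union, Finset.image_insert, Finset.image_singleton]
    congr 1
    have h7 : (base m).image φ = (base m).image id := Finset.image_congr fun s hs => hB s hs
    rw [h7, Finset.image_id]
  rwa [h6] at h5

theorem recon_spine {φ : (Fin (m + 3) → ℤ) → (Fin (m + 3) → ℤ)} (h : Ch k b x y)
    (h' : Ch k b' x' y') (hφ : HIso (latt m x y) (latt m x' y') φ)
    (hB : ∀ s ∈ base m, φ s = s) (h1 : φ (pt (x 1) (y 1) 1) = pt (x' 1) (y' 1) 1) :
    ∀ i, 1 ≤ i → i ≤ k → φ (pt (x i) (y i) 1) = pt (x' i) (y' i) 1 := by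
  intro i
  induction i using Nat.strong_induction_on with
  | _ i ih =>
    intro hi1 hik
    rcases Nat.lt_or_ge 1 i with h2 | h2
    · obtain ⟨j, rfl⟩ : ∃ j, i = j + 1 := ⟨i - 1, by omega⟩
      have hj := ih j (by omega) (by omega) (by omega)
      have h3 := lk_map h hφ hB (lk_PP h (i := j) (by omega) hik)
      rw [hj] at h3
      rcases lk_P h' (by omega) (by omega) h3 with ⟨l, hl1, hl2, h4⟩ | ⟨-, h4⟩ | ⟨X, Y, hl, h4⟩
      · exfalso
        subst hl2
        have hl3 := ih l (by omega) (by omega) (by omega)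
        rw [← hl3] at h4
        exact spine_ne h (by omega) (by omega) (by omega) (hφ.bij.injOn (spine_min h (by omega))
          (spine_min h (by omega)) h4)
      · exact h4
      · exfalso
        -- the point `j + 1` has two neighbours, a leaf has one
        have h5 := lk_map h hφ hB (lk_PL h (by omega) (by omega) (leaf_s h j (by omega)))
        have h6 := h3.symm
        rw [h4] at h5 h6
        have h7 := lk_L h' hl h5
        have h8 := lk_L h' hl h6
        have h9 : φ (pt (x j) (y j) 1) = φ (pt (x j - x (j + 1)) (y j + y (j + 1)) 0) := by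
          rw [hj, h7, h8]
        exact spine_ne_leaf _ _ _ _ (hφ.bij.injOn (spine_min h (by omega))
          (leaf_min h (leaf_s h j (by omega))) h9)
    · have h3 : i = 1 := by omega
      rw [h3]
      exact h1

theorem recon_leaf {φ : (Fin (m + 3) → ℤ) → (Fin (m + 3) → ℤ)} (h : Ch k b x y)
    (h' : Ch k b' x' y') (hφ : HIso (latt m x y) (latt m x' y') φ)
    (hB : ∀ s ∈ base m, φ s = s) (h1 : φ (pt (x 1) (y 1) 1) = pt (x' 1) (y' 1) 1)
    {i : ℕ} (hi1 : 1 ≤ i) (hik : i ≤ k) {X Y : ℤ} (hl : Leaf k b x y i X Y) :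
    ∃ X' Y', Leaf k b' x' y' i X' Y' ∧ φ (pt X Y 0) = pt X' Y' 0 := by
  have hs := recon_spine h h' hφ hB h1
  have h2 := lk_map h hφ hB (lk_PL h hi1 hik hl)
  rw [hs i hi1 hik] at h2
  rcases lk_P h' hi1 hik h2 with ⟨l, hl1, hl2, h4⟩ | ⟨h3, h4⟩ | h4
  · exfalso
    rw [← hs l hl1 (by omega)] at h4
    exact spine_ne_leaf _ _ _ _ (hφ.bij.injOn (spine_min h (by omega)) (leaf_min h hl) h4.symm)
  · exfalso
    rw [← hs (i + 1) (by omega) h3] at h4
    exact spine_ne_leaf _ _ _ _ (hφ.bij.injOn (spine_min h (by omega)) (leaf_min h hl) h4.symm)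
  · exact h4

/-- If the partial quotient is `2`, there is only one leaf. -/
theorem leaf_unique (h : Ch k b x y) {j : ℕ} (hj : j < k) (hb : b (j + 1) = 2) {X Y : ℤ}
    (hl : Leaf k b x y (j + 1) X Y) : X = x j - x (j + 1) ∧ Y = y j + y (j + 1) := by
  have hxx := h.hx j hj
  have hyy := h.hy j hj
  rw [hb] at hxx hyy
  rcases hl with ⟨hi, a1, a2⟩ | ⟨hi, a1, a2⟩ | ⟨j', hi, hj', hh⟩
  · omega
  · omega
  · have e1 : j' = j := by omega
    subst e1
    rcases hh with ⟨a1, a2⟩ | ⟨a1, a2⟩ | ⟨a0, a1, a2⟩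
    · exact ⟨a1, a2⟩
    · exact ⟨by omega, by omega⟩
    · omega

theorem recon_half {φ : (Fin (m + 3) → ℤ) → (Fin (m + 3) → ℤ)} (h : Ch k b x y)
    (h' : Ch k b' x' y') (hφ : HIso (latt m x y) (latt m x' y') φ)
    (hB : ∀ s ∈ base m, φ s = s) (h1 : φ (pt (x 1) (y 1) 1) = pt (x' 1) (y' 1) 1)
    {j : ℕ} (hj : j < k) (hb : b (j + 1) = 4) : b' (j + 1) = 4 := by
  rcases h'.hb (j + 1) (by omega) (by omega) with h2 | h2
  · exfalso
    have l1 := leaf_s h j hj
    have l2 : Leaf k b x y (j + 1) (2 * x (j + 1)) (2 * y (j + 1)) :=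
      Or.inr (Or.inr ⟨j, rfl, hj, Or.inr (Or.inr ⟨hb, rfl, rfl⟩)⟩)
    obtain ⟨X₁, Y₁, h3, h4⟩ := recon_leaf h h' hφ hB h1 (by omega) (by omega) l1
    obtain ⟨X₂, Y₂, h5, h6⟩ := recon_leaf h h' hφ hB h1 (by omega) (by omega) l2
    obtain ⟨e1, e2⟩ := leaf_unique h' hj h2 h3
    obtain ⟨e3, e4⟩ := leaf_unique h' hj h2 h5
    have h7 := hφ.bij.injOn (leaf_min h l1) (leaf_min h l2) (by rw [h4, h6, e1, e2, e3, e4])
    obtain ⟨h8, -, -⟩ := pt_inj h7
    have hxx := h.hx j hj
    rw [hb] at hxx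
    have g1 := h.x_pos (j + 1) (by omega)
    have g2 := h.x_nonneg (j + 2) (by omega)
    omega
  · exact h2

theorem recon {φ : (Fin (m + 3) → ℤ) → (Fin (m + 3) → ℤ)} (h : Ch k b x y)
    (h' : Ch k b' x' y') (hφ : HIso (latt m x y) (latt m x' y') φ)
    (hB : ∀ s ∈ base m, φ s = s) (h1 : φ (pt (x 1) (y 1) 1) = pt (x' 1) (y' 1) 1) :
    ∀ i, 1 ≤ i → i ≤ k → b i = b' i := by
  have hk := h.k2
  have hid : HIso (latt m x' y') (latt m x' y') id :=
    ⟨Set.bijOn_id _, fun T _ => by rw [Finset.image_id]⟩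
  obtain ⟨χ, hχ, h2⟩ := hid.comp_inv hφ
  have hB' : ∀ s ∈ base m, χ s = s := by
    intro s hs
    have h3 := h2 s (base_sub h' hs)
    refine hφ.bij.injOn (hχ.bij.mapsTo (base_sub h' hs)) (base_sub h hs) ?_
    rw [h3, hB s hs]
    rfl
  have h1' : χ (pt (x' 1) (y' 1) 1) = pt (x 1) (y 1) 1 := by
    have h3 := h2 (pt (x' 1) (y' 1) 1) (spine_min h' (by omega))
    refine hφ.bij.injOn (hχ.bij.mapsTo (spine_min h' (by omega))) (spine_min h (by omega)) ?_
    rw [h3, h1]
    rfl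
  intro i hi1 hik
  obtain ⟨j, rfl⟩ : ∃ j, i = j + 1 := ⟨i - 1, by omega⟩
  rcases h.hb (j + 1) hi1 hik with h3 | h3
  · rcases h'.hb (j + 1) hi1 hik with h4 | h4
    · rw [h3, h4]
    · have h5 := recon_half h' h hχ hB' h1' (by omega) h4
      omega
  · rw [h3, recon_half h h' hφ hB h1 (by omega) h3]

/-- The number of the vertices is at least `k - 1`. -/
theorem face_lower (h : Ch k b x y) : k - 1 ≤
    {T : Finset (Fin (m + 3) → ℤ) | IsFace (latt m x y) T ∧ T.card = m + 3}.ncard := by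
  have h1 : ∀ i ∈ Finset.range (k - 1), (base m ∪ {pt (x (i + 1)) (y (i + 1)) 1,
      pt (x (i + 1 + 1)) (y (i + 1 + 1)) 1} : Finset (Fin (m + 3) → ℤ)) ∈
      {T : Finset (Fin (m + 3) → ℤ) | IsFace (latt m x y) T ∧ T.card = m + 3} := by
    intro i hi
    rw [Finset.mem_range] at hi
    obtain ⟨h2, h3, h4, h5⟩ := lk_PP (m := m) h (i := i + 1) (by omega) (by omega)
    refine ⟨h5, ?_⟩
    rw [Finset.card_union_of_disjoint, base_card, Finset.card_pair h2]
    rw [Finset.disjoint_insert_right, Finset.disjoint_singleton_right]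
    exact ⟨h3, h4⟩
  have h2 : Set.InjOn (fun i => (base m ∪ {pt (x (i + 1)) (y (i + 1)) 1,
      pt (x (i + 1 + 1)) (y (i + 1 + 1)) 1} : Finset (Fin (m + 3) → ℤ)))
      (Finset.range (k - 1) : Set ℕ) := by
    have key : ∀ i j, i < k - 1 → j < k - 1 → (base m ∪ {pt (x (i + 1)) (y (i + 1)) 1,
        pt (x (i + 1 + 1)) (y (i + 1 + 1)) 1} : Finset (Fin (m + 3) → ℤ)) =
        base m ∪ {pt (x (j + 1)) (y (j + 1)) 1, pt (x (j + 1 + 1)) (y (j + 1 + 1)) 1} →
        j ≤ i := by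
      intro i j hi hj hij
      have h3 : (pt (x (i + 1)) (y (i + 1)) 1 : Fin (m + 3) → ℤ) ∈
          base m ∪ {pt (x (j + 1)) (y (j + 1)) 1, pt (x (j + 1 + 1)) (y (j + 1 + 1)) 1} := by
        rw [← hij]
        simp
      rw [Finset.mem_union, Finset.mem_insert, Finset.mem_singleton] at h3
      rcases h3 with h3 | h3 | h3
      · exact absurd h3 (pt1_not_base _ _)
      · by_contra hc
        exact spine_ne h (by omega) (by omega) (by omega) h3
      · by_contra hc
        exact spine_ne h (by omega) (by omega) (by omega) h3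
    intro i hi j hj hij
    have hi' : i < k - 1 := by simpa using hi
    have hj' : j < k - 1 := by simpa using hj
    exact le_antisymm (key j i hj' hi' hij.symm) (key i j hi' hj' hij)
  have h3 := Set.ncard_le_ncard (s := (fun i => (base m ∪ {pt (x (i + 1)) (y (i + 1)) 1,
      pt (x (i + 1 + 1)) (y (i + 1 + 1)) 1} : Finset (Fin (m + 3) → ℤ))) ''
      (Finset.range (k - 1) : Set ℕ)) (by
        rintro _ ⟨i, hi, rfl⟩
        exact h1 i hi) (face_card h).1
  rw [h2.ncard_image, Set.ncard_coe_finset, Finset.card_range] at h3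
  exact h3

end Pool.Agent.MVC
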